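import Mathlib

set_option autoImplicit false

namespace Pool.Agent.H71.BanachCore

/-- The action of `G` on a set of functions `G → ℤ` closed under translation. -/
theorem exists_finiteIndex {G : Type*} [Group G] (D : Set (G → ℤ)) (hD : D.Finite)
    (hB : ∀ f ∈ D, ∀ g : G, (fun y => f (g⁻¹ * y) - f g⁻¹) ∈ D)
    (h1 : ∀ f ∈ D, f 1 = 0) :
    ∃ H : Subgroup G, H.FiniteIndex ∧ ∀ h ∈ H, ∀ f ∈ D, ∀ y, f (h * y) = f h + f y := by
  classical
  haveI : Finite D := hD
  letI act : MulAction G D :=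
    { smul := fun g f => ⟨fun y => f.1 (g⁻¹ * y) - f.1 g⁻¹, hB f.1 f.2 g⟩
      one_smul := by
        rintro ⟨f, hf⟩
        apply Subtype.ext
        funext y
        show f (1⁻¹ * y) - f 1⁻¹ = f y
        simp [h1 f hf]
      mul_smul := by
        rintro g h ⟨f, hf⟩
        apply Subtype.ext
        funext y
        show f ((g * h)⁻¹ * y) - f (g * h)⁻¹
          = (f (h⁻¹ * (g⁻¹ * y)) - f h⁻¹) - (f (h⁻¹ * g⁻¹) - f h⁻¹)
        rw [mul_inv_rev, mul_assoc]
        ring }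
  refine ⟨(MulAction.toPermHom G D).ker, inferInstance, ?_⟩
  intro h hh f hf y
  have hh' : h⁻¹ ∈ (MulAction.toPermHom G D).ker := inv_mem hh
  rw [MonoidHom.mem_ker] at hh'
  have h2 : (h⁻¹ • (⟨f, hf⟩ : D)) = ⟨f, hf⟩ := by
    have := congrArg (fun p : Equiv.Perm D => p ⟨f, hf⟩) hh'
    simpa using this
  have h3 : (fun y => f (h⁻¹⁻¹ * y) - f h⁻¹⁻¹) = f := congrArg Subtype.val h2
  have h4 := congrFun h3 y
  simp only [inv_inv] at h4
  linarith

/-- separating finite set -/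
theorem exists_sep {G : Type*} (D : Set (G → ℤ)) (hD : D.Finite) :
    ∃ F : Finset G, ∀ f ∈ D, ∀ f' ∈ D, (∀ y ∈ F, f y = f' y) → f = f' := by
  classical
  have key : ∀ p : (G → ℤ) × (G → ℤ), ∃ y : Option G, p.1 ≠ p.2 → ∃ z, y = some z ∧ p.1 z ≠ p.2 z := by
    intro p
    by_cases h : p.1 = p.2
    · exact ⟨none, fun h' => absurd h h'⟩
    · obtain ⟨z, hz⟩ := Function.ne_iff.mp h
      exact ⟨some z, fun _ => ⟨z, rfl, hz⟩⟩
  choose w hw using key
  refine ⟨(hD.toFinset ×ˢ hD.toFinset).biUnion (fun p => (w p).toFinset), ?_⟩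
  intro f hf f' hf' h
  by_contra hne
  obtain ⟨z, hz, hz'⟩ := hw (f, f') hne
  apply hz'
  apply h
  rw [Finset.mem_biUnion]
  refine ⟨(f, f'), ?_, ?_⟩
  · simp [hf, hf']
  · rw [hz]; simp

/-- A group is virtually cyclic when it has a cyclic subgroup of finite index. -/
def VirtCyclic (G : Type*) [Group G] : Prop := ∃ H : Subgroup G, IsCyclic H ∧ H.FiniteIndex

theorem virtCyclic_of_finite_ker {G : Type*} [Group G] (H : Subgroup G) (hH : H.FiniteIndex)
    (φ : G → ℤ) (hφ : ∀ h ∈ H, ∀ y, φ (h * y) = φ h + φ y)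
    (y : G) (hy : y ∈ H) (hpos : 0 < φ y) (hK : {u : G | u ∈ H ∧ φ u = 0}.Finite) :
    VirtCyclic G := by
  classical
  refine ⟨Subgroup.zpowers y, inferInstance, ?_⟩
  have h1 : φ 1 = 0 := by
    have := hφ 1 H.one_mem 1
    simp at this; exact this
  have hinv : ∀ h ∈ H, φ h⁻¹ = - φ h := by
    intro h hh
    have := hφ h hh h⁻¹
    rw [mul_inv_cancel, h1] at this
    linarith
  have hzpow : ∀ n : ℤ, φ (y ^ n) = n * φ y := by
    intro n
    induction n using Int.induction_on with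
    | zero => simp [h1]
    | succ n ih =>
      rw [add_comm, zpow_add, zpow_one, hφ y hy, ih]
      push_cast; ring
    | pred n ih =>
      rw [sub_eq_add_neg, add_comm, zpow_add, zpow_neg_one, hφ _ (H.inv_mem hy), ih, hinv y hy]
      push_cast; ring
  -- finite fibre
  have hfib : ∀ c : ℤ, {r : G | r ∈ H ∧ φ r = c}.Finite := by
    intro c
    by_cases hne : ∃ r0, r0 ∈ H ∧ φ r0 = c
    · obtain ⟨r0, hr0, hr0c⟩ := hne
      refine (hK.image (fun u => r0 * u)).subset ?_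
      rintro r ⟨hr, hrc⟩
      refine ⟨r0⁻¹ * r, ⟨H.mul_mem (H.inv_mem hr0) hr, ?_⟩, by simp⟩
      rw [hφ _ (H.inv_mem hr0), hinv _ hr0, hr0c, hrc]; ring
    · convert Set.finite_empty
      rw [Set.eq_empty_iff_forall_notMem]
      rintro r ⟨hr, hrc⟩
      exact hne ⟨r, hr, hrc⟩
  have hR : {r : G | r ∈ H ∧ 0 ≤ φ r ∧ φ r < φ y}.Finite := by
    have : {r : G | r ∈ H ∧ 0 ≤ φ r ∧ φ r < φ y} ⊆
        ⋃ c ∈ (Set.Ico (0:ℤ) (φ y)), {r : G | r ∈ H ∧ φ r = c} := by
      rintro r ⟨hr, h0, h1⟩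
      simp only [Set.mem_iUnion]
      exact ⟨φ r, ⟨h0, h1⟩, hr, rfl⟩
    exact ((Set.finite_Ico _ _).biUnion (fun c _ => hfib c)).subset this
  have hle : Subgroup.zpowers y ≤ H := by
    rw [Subgroup.zpowers_le]; exact hy
  -- relative index
  have hrel : (Subgroup.zpowers y).relIndex H ≠ 0 := by
    unfold Subgroup.relIndex
    haveI : Finite {r : G | r ∈ H ∧ 0 ≤ φ r ∧ φ r < φ y} := hR
    have hsurj : Function.Surjective
        (fun r : {r : G | r ∈ H ∧ 0 ≤ φ r ∧ φ r < φ y} =>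
          ((⟨r.1, r.2.1⟩ : H) : H ⧸ (Subgroup.zpowers y).subgroupOf H)) := by
      intro q
      induction q using QuotientGroup.induction_on with
      | H h =>
        obtain ⟨h, hh⟩ := h
        set q : ℤ := φ h / φ y with hq
        have hmem : h * y ^ (-q) ∈ H := H.mul_mem hh (H.zpow_mem hy _)
        have hval : φ (h * y ^ (-q)) = φ h % φ y := by
          rw [hφ _ hh, hzpow, Int.emod_def]; rw [hq]; ring
        refine ⟨⟨h * y ^ (-q), hmem, ?_, ?_⟩, ?_⟩
        · rw [hval]; exact Int.emod_nonneg _ hpos.ne'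
        · rw [hval]; exact Int.emod_lt_of_pos _ hpos
        · rw [QuotientGroup.eq]
          rw [Subgroup.mem_subgroupOf]
          simp only [Subgroup.coe_mul, Subgroup.coe_inv]
          rw [mul_inv_rev, mul_assoc, inv_mul_cancel, mul_one, zpow_neg, inv_inv]
          exact Subgroup.zpow_mem_zpowers _ _
    haveI := Finite.of_surjective _ hsurj
    exact Subgroup.index_ne_zero_of_finite
  constructor
  rw [← Subgroup.relIndex_mul_index hle]
  exact mul_ne_zero hrel hH.index_ne_zero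

open Filter in
theorem core {G : Type*} [Group G] (hFG : Group.FG G) (N : G → ℤ) (hN0 : ∀ g, 0 ≤ N g)
    (hN1 : N 1 = 0)
    (hprop : ∀ r : ℤ, {g | N g ≤ r}.Finite) (D : Set (G → ℤ)) (hD : D.Finite)
    (hA : ∀ F : Finset G, ∀ᶠ z in cofinite, ∃ f ∈ D, ∀ y ∈ F, N (z * y) - N z = f y)
    (hB : ∀ f ∈ D, ∀ g : G, (fun y => f (g⁻¹ * y) - f g⁻¹) ∈ D)
    (h1 : ∀ f ∈ D, f 1 = 0)
    (hunb : ∀ f ∈ D, ¬ ∃ C : ℤ, ∀ y, |f y| ≤ C) : VirtCyclic G := by
  classical
  rcases finite_or_infinite G with hfinG | hinfG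
  · exact ⟨⊥, inferInstance, inferInstance⟩
  obtain ⟨H, hHfin, hHom⟩ := exists_finiteIndex D hD hB h1
  obtain ⟨F, hsep⟩ := exists_sep D hD
  set R : G → (G → ℤ) → Prop := fun z f => f ∈ D ∧ ∀ y ∈ F, N (z * y) - N z = f y with hR
  have hinvH : ∀ f ∈ D, ∀ h ∈ H, f h⁻¹ = - f h := by
    intro f hf h hh
    have := hHom h hh f hf h⁻¹
    rw [mul_inv_cancel, h1 f hf] at this
    linarith
  have L1 : ∀ F' : Finset G, ∀ᶠ z in cofinite, ∀ f, R z f → ∀ y ∈ F', N (z * y) - N z = f y := by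
    intro F'
    filter_upwards [hA (F ∪ F')] with z hz
    obtain ⟨f', hf', hz⟩ := hz
    intro f hf y hy
    have : f = f' := by
      apply hsep f hf.1 f' hf'
      intro y' hy'
      rw [← hf.2 y' hy', hz y' (Finset.mem_union_left _ hy')]
    rw [this]
    exact hz y (Finset.mem_union_right _ hy)
  have L2 : ∀ h ∈ H, ∀ᶠ z in cofinite, ∀ f, R z f → (R (z * h) f ∧ N (z * h) = N z + f h) := by
    intro h hh
    filter_upwards [L1 (insert h (F.image (fun y => h * y)))] with z hz f hf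
    have e1 := hz f hf h (Finset.mem_insert_self _ _)
    refine ⟨⟨hf.1, ?_⟩, by linarith⟩
    intro y hy
    have e2 := hz f hf (h * y) (Finset.mem_insert_of_mem (Finset.mem_image_of_mem _ hy))
    rw [hHom h hh f hf.1 y] at e2
    rw [mul_assoc]
    linarith
  -- nonempty
  obtain ⟨z0, f1, hf1, -⟩ := (hA ∅).exists
  -- f1 is nonzero on H
  have hex : ∃ y ∈ H, f1 y ≠ 0 := by
    by_contra hcon
    push Not at hcon
    apply hunb f1 hf1
    obtain ⟨C, hC⟩ := (Set.finite_range (fun q : G ⧸ H => |f1 (q.out)⁻¹|)).bddAbove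
    refine ⟨C, fun y => ?_⟩
    obtain ⟨h, hh⟩ := QuotientGroup.mk_out_eq_mul H y⁻¹
    have : f1 y = f1 ((y⁻¹ : G) : G ⧸ H).out⁻¹ := by
      rw [hh, mul_inv_rev, inv_inv, hHom _ (H.inv_mem h.2) f1 hf1, hcon _ (H.inv_mem h.2), zero_add]
    rw [this]
    exact hC ⟨_, rfl⟩
  obtain ⟨y, hyH, hy0⟩ := hex
  have hpow : ∀ f ∈ D, ∀ n : ℕ, f (y ^ n) = n * f y := by
    intro f hf n
    induction n with
    | zero => simp [h1 f hf]
    | succ n ih =>
      rw [pow_succ', hHom y hyH f hf, ih]; push_cast; ring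
  have hinj : Function.Injective (fun n : ℕ => y ^ n) := by
    intro a b hab
    have e := congrArg f1 hab
    simp only [hpow f1 hf1] at e
    have := mul_right_cancel₀ hy0 e
    exact_mod_cast this
  have htend : Tendsto (fun n : ℕ => y ^ n) atTop cofinite := by
    rw [← Nat.cofinite_eq_atTop]
    exact hinj.tendsto_cofinite
  obtain ⟨n0, hn0⟩ := eventually_atTop.mp (htend.eventually ((hA F).and (L2 y hyH)))
  obtain ⟨f, hfD, hfF⟩ := (hn0 n0 le_rfl).1
  have hray : ∀ k : ℕ, R (y ^ (n0 + k)) f ∧ N (y ^ (n0 + k)) = N (y ^ n0) + k * f y := by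
    intro k
    induction k with
    | zero => exact ⟨⟨hfD, hfF⟩, by simp⟩
    | succ k ih =>
      have := (hn0 (n0 + k) (Nat.le_add_right _ _)).2 f ih.1
      rw [← add_assoc, pow_succ]
      refine ⟨this.1, ?_⟩
      rw [this.2, ih.2]; push_cast; ring
  have hpos : 0 < f y := by
    by_contra hneg
    push Not at hneg
    have hev : ∀ᶠ z in cofinite, ¬ (N z ≤ N (y ^ n0)) := by
      have := hprop (N (y ^ n0))
      simpa [Filter.eventually_cofinite] using this
    obtain ⟨n, hn, hn'⟩ := ((htend.eventually hev).and (eventually_ge_atTop n0)).exists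
    obtain ⟨k, rfl⟩ := Nat.exists_eq_add_of_le hn'
    apply hn
    show N (y ^ (n0 + k)) ≤ _
    rw [(hray k).2]
    have : (k : ℤ) * f y ≤ 0 := mul_nonpos_of_nonneg_of_nonpos (by positivity) hneg
    linarith
  -- finite generation of H
  have hHfg : H.FG := by
    rw [← Group.fg_iff_subgroup_fg]
    haveI := hFG
    exact Subgroup.fg_of_index_ne_zero H
  obtain ⟨S, hS⟩ := hHfg
  have hSH : ∀ s ∈ S, s ∈ H := by
    intro s hs
    rw [← hS]
    exact Subgroup.subset_closure hs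
  have hBad : ∀ᶠ z in cofinite, ∀ s ∈ S, ∀ f', R z f' →
      ((R (z * s) f' ∧ N (z * s) = N z + f' s) ∧
        (R (z * s⁻¹) f' ∧ N (z * s⁻¹) = N z + f' s⁻¹)) := by
    rw [Filter.eventually_all_finset]
    intro s hs
    filter_upwards [L2 s (hSH s hs), L2 s⁻¹ (H.inv_mem (hSH s hs))] with z h1 h2 f' hf'
    exact ⟨h1 f' hf', h2 f' hf'⟩
  obtain ⟨Bad, hBadfin, hBadspec⟩ : ∃ Bad : Set G, Bad.Finite ∧ ∀ z ∉ Bad, ∀ s ∈ S, ∀ f', R z f' →
      ((R (z * s) f' ∧ N (z * s) = N z + f' s) ∧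
        (R (z * s⁻¹) f' ∧ N (z * s⁻¹) = N z + f' s⁻¹)) := by
    refine ⟨_, Filter.eventually_cofinite.mp hBad, ?_⟩
    intro z hz
    exact not_not.mp hz
  obtain ⟨C, hC0, hC⟩ : ∃ C : ℤ, 0 ≤ C ∧ ∀ z ∈ Bad, ∀ f' ∈ D, N z - f' z ≤ C := by
    obtain ⟨C, hC⟩ := ((hBadfin.prod hD).image (fun p : G × (G → ℤ) => N p.1 - p.2 p.1)).bddAbove
    refine ⟨max C 0, le_max_right _ _, fun z hz f' hf' => le_trans ?_ (le_max_left _ _)⟩
    exact hC ⟨(z, f'), ⟨hz, hf'⟩, rfl⟩
  have hbound : ∀ z ∈ H, ∀ f', R z f' → N z - f' z ≤ C := by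
    intro z hz
    rw [← hS] at hz
    induction hz using Subgroup.closure_induction_right with
    | one =>
      intro f' hf'
      rw [hN1, h1 f' hf'.1]; simpa using hC0
    | mul_right x hx s hs ih =>
      intro f' hf'
      have hxH : x ∈ H := by rw [← hS]; exact hx
      by_cases hb : x * s ∈ Bad
      · exact hC _ hb f' hf'.1
      · have := (hBadspec _ hb s hs f' hf').2
        rw [mul_inv_cancel_right] at this
        have e := ih f' this.1
        rw [hHom x hxH f' hf'.1 s]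
        have e2 := this.2
        rw [hinvH f' hf'.1 s (hSH s hs)] at e2
        linarith
    | mul_inv_cancel x hx s hs ih =>
      intro f' hf'
      have hxH : x ∈ H := by rw [← hS]; exact hx
      by_cases hb : x * s⁻¹ ∈ Bad
      · exact hC _ hb f' hf'.1
      · have := (hBadspec _ hb s hs f' hf').1
        rw [inv_mul_cancel_right] at this
        have e := ih f' this.1
        rw [hHom x hxH f' hf'.1 s⁻¹, hinvH f' hf'.1 s (hSH s hs)]
        have e2 := this.2
        linarith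
  -- the level sets
  have hEfin : ∀ n : ℕ, {z : G | z ∈ H ∧ R z f ∧ f z = n * f y}.Finite := by
    intro n
    refine (hprop (n * f y + C)).subset ?_
    rintro z ⟨hz, hzR, hzf⟩
    have := hbound z hz f hzR
    rw [hzf] at this
    show N z ≤ _
    linarith
  obtain ⟨M, hM⟩ : ∃ M : ℕ, ∀ n ≥ M, ∀ z, z ∈ H → R z f → f z = ((n + 1 : ℕ) : ℤ) * f y →
      (z * y⁻¹ ∈ H ∧ R (z * y⁻¹) f ∧ f (z * y⁻¹) = (n : ℤ) * f y) := by
    have hfin := Filter.eventually_cofinite.mp (L2 y⁻¹ (H.inv_mem hyH))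
    obtain ⟨M, hM⟩ := (hfin.image f).bddAbove
    refine ⟨M.toNat, ?_⟩
    intro n hn z hz hzR hzf
    have hgood : ∀ f', R z f' → (R (z * y⁻¹) f' ∧ N (z * y⁻¹) = N z + f' y⁻¹) := by
      by_contra hcon
      have h2 : f z ≤ M := hM ⟨z, hcon, rfl⟩
      rw [hzf] at h2
      have h3 : (M : ℤ) ≤ n := by
        have : (M.toNat : ℤ) ≤ n := by exact_mod_cast hn
        linarith [Int.self_le_toNat M]
      have h4 : ((n + 1 : ℕ) : ℤ) * 1 ≤ ((n + 1 : ℕ) : ℤ) * f y := by
        apply mul_le_mul_of_nonneg_left _ (by positivity)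
        linarith
      push_cast at h4 h2
      linarith
    refine ⟨H.mul_mem hz (H.inv_mem hyH), (hgood f hzR).1, ?_⟩
    rw [hHom z hz f hfD, hzf, hinvH f hfD y hyH]; push_cast; ring
  have hdesc : ∀ k : ℕ, ∀ z, z ∈ H → R z f → f z = ((M + k : ℕ) : ℤ) * f y →
      (z * (y⁻¹) ^ k ∈ {z : G | z ∈ H ∧ R z f ∧ f z = M * f y}) := by
    intro k
    induction k with
    | zero => intro z hz hzR hzf; simpa using ⟨hz, hzR, hzf⟩
    | succ k ih =>
      intro z hz hzR hzf
      obtain ⟨a, b, c⟩ := hM (M + k) (Nat.le_add_right _ _) z hz hzR hzf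
      have := ih _ a b c
      rw [pow_succ', ← mul_assoc]
      exact this
  have hK : {u : G | u ∈ H ∧ f u = 0}.Finite := by
    by_contra hinf
    obtain ⟨T, hTK, hTcard⟩ := (show Set.Infinite {u : G | u ∈ H ∧ f u = 0} from hinf).exists_subset_card_eq
      ((hEfin M).toFinset.card + 1)
    have hev : ∀ᶠ n : ℕ in atTop, ∀ u ∈ T, ∀ f', R (y ^ n) f' →
        (R (y ^ n * u) f' ∧ N (y ^ n * u) = N (y ^ n) + f' u) := by
      rw [Filter.eventually_all_finset]
      intro u hu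
      exact htend.eventually (L2 u (hTK hu).1)
    obtain ⟨n, hn, hn'⟩ := (hev.and (eventually_ge_atTop (max n0 M))).exists
    obtain ⟨k, hk⟩ := Nat.exists_eq_add_of_le (le_trans (le_max_right _ _) hn')
    obtain ⟨k', hk'⟩ := Nat.exists_eq_add_of_le (le_trans (le_max_left _ _) hn')
    have hRn : R (y ^ n) f := by rw [hk']; exact (hray k').1
    have hmaps : ∀ u ∈ T, y ^ n * u * (y⁻¹) ^ k ∈ (hEfin M).toFinset := by
      intro u hu
      rw [Set.Finite.mem_toFinset]
      apply hdesc k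
      · exact H.mul_mem (H.pow_mem hyH _) (hTK hu).1
      · exact (hn u hu f hRn).1
      · rw [hHom _ (H.pow_mem hyH _) f hfD, hpow f hfD, (hTK hu).2, hk]; ring
    have hcard := Finset.card_le_card_of_injOn (fun u => y ^ n * u * (y⁻¹) ^ k) hmaps (by
      intro a _ b _ hab
      simpa using hab)
    omega
  exact virtCyclic_of_finite_ker H hHfin f (fun h hh z => hHom h hh f hfD z) y hyH hpos hK

end Pool.Agent.H71.BanachCore
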