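import Mathlib

set_option autoImplicit false

namespace Pool.Agent.H71.Cond

/-- The set `𝒢_n` of normal subgroups of the free group `F_n` (`n`-generated marked groups). -/
@[ext] structure Marked (n : ℕ) : Type where
  /-- the normal subgroup -/
  sub : Subgroup (FreeGroup (Fin n))
  normal : sub.Normal

instance instNormalMarked {n : ℕ} (N : Marked n) : N.sub.Normal := N.normal

open Classical in
/-- The indicator function in `2^{F_n}` of a normal subgroup of `F_n`. -/
noncomputable def Marked.indicator {n : ℕ} (N : Marked n) : FreeGroup (Fin n) → Bool :=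
  fun w => decide (w ∈ N.sub)

/-- The topology on `𝒢_n` induced from the product topology on `2^{F_n}`. -/
noncomputable instance instTopMarked (n : ℕ) : TopologicalSpace (Marked n) :=
  TopologicalSpace.induced Marked.indicator inferInstance

/-- The space of finitely generated marked groups: topological disjoint union of the `𝒢_n`,
`n ≥ 1`. -/
abbrev MarkedSpace : Type := Σ n : {n : ℕ // 1 ≤ n}, Marked n.1

/-- The isomorphism class `[G]`: all marked groups whose underlying group is isomorphic to `G`. -/
def isoClass (G : Type*) [Group G] : Set MarkedSpace :=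
  {x | Nonempty ((FreeGroup (Fin x.1.1) ⧸ x.2.sub) ≃* G)}

/-- `G` is condensed if `[G]` with the subspace topology has no isolated points. -/
def Condensed (G : Type*) [Group G] : Prop :=
  ∀ x ∈ isoClass G, ¬ ∃ U : Set MarkedSpace, IsOpen U ∧ U ∩ isoClass G = {x}

/-- Word length with respect to `S`: the least length of a product of elements of `S` and their
inverses that equals `g`. -/
noncomputable def wordLen {G : Type*} [Group G] (S : Set G) (g : G) : ℕ :=
  sInf {n | ∃ l : List G, l.length = n ∧ (∀ s ∈ l, s ∈ S ∨ s⁻¹ ∈ S) ∧ l.prod = g}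

/-- The distance in the Cayley graph of `G` with respect to `S`. -/
noncomputable def cayleyDist {G : Type*} [Group G] (S : Set G) (x y : G) : ℝ :=
  (wordLen S (x⁻¹ * y) : ℝ)

/-- `G` and `H` are quasi-isometric: for all finite generating sets `S` of `G` and `T` of `H`
the Cayley graphs are quasi-isometric. -/
def QuasiIsometric (G H : Type*) [Group G] [Group H] : Prop :=
  ∀ (S : Set G) (T : Set H), S.Finite → T.Finite → Subgroup.closure S = ⊤ →
    Subgroup.closure T = ⊤ →
    ∃ (φ : G → H) (A B : ℝ), 1 ≤ A ∧ 0 ≤ B ∧
      (∀ x y, A⁻¹ * cayleyDist S x y - B ≤ cayleyDist T (φ x) (φ y) ∧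
        cayleyDist T (φ x) (φ y) ≤ A * cayleyDist S x y + B) ∧
      ∀ z, ∃ x, cayleyDist T z (φ x) ≤ B

end Pool.Agent.H71.Cond
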