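import Mathlib
import Pool.Agent.H71.CondDefs

set_option autoImplicit false

namespace Pool.Agent.H71.Cond

/-- the marked group attached to a surjection from a free group -/
def pt {G : Type*} [Group G] (n : ℕ) (hn : 1 ≤ n) (ψ : FreeGroup (Fin n) →* G) : MarkedSpace :=
  ⟨⟨n, hn⟩, ⟨ψ.ker, inferInstance⟩⟩

theorem pt_mem {G : Type*} [Group G] (n : ℕ) (hn : 1 ≤ n) (ψ : FreeGroup (Fin n) →* G)
    (hψ : Function.Surjective ψ) : pt n hn ψ ∈ isoClass G :=
  ⟨QuotientGroup.quotientKerEquivOfSurjective ψ hψ⟩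

theorem exists_surj {G : Type*} [Group G] (x : MarkedSpace) (hx : x ∈ isoClass G) :
    ∃ ψ : FreeGroup (Fin x.1.1) →* G, Function.Surjective ψ ∧ ψ.ker = x.2.sub := by
  obtain ⟨e⟩ := hx
  refine ⟨e.toMonoidHom.comp (QuotientGroup.mk' x.2.sub), ?_, ?_⟩
  · exact e.surjective.comp (QuotientGroup.mk'_surjective _)
  · ext w
    rw [MonoidHom.mem_ker]
    simp

theorem mem_indicator {n : ℕ} (N : Marked n) (w : FreeGroup (Fin n)) :
    N.indicator w = true ↔ w ∈ N.sub := by
  unfold Marked.indicator; simp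

theorem not_condensed_of {G : Type*} [Group G] (n : ℕ) (hn : 1 ≤ n)
    (ψ₀ : FreeGroup (Fin n) →* G) (hψ₀ : Function.Surjective ψ₀) (W : Finset (FreeGroup (Fin n)))
    (hW : ∀ w ∈ W, ψ₀ w = 1)
    (h : ∀ ψ : FreeGroup (Fin n) →* G, Function.Surjective ψ → (∀ w ∈ W, ψ w = 1) →
      ψ.ker = ψ₀.ker) : ¬ Condensed G := by
  intro hc
  apply hc (pt n hn ψ₀) (pt_mem n hn ψ₀ hψ₀)
  refine ⟨Sigma.mk (⟨n, hn⟩ : {n : ℕ // 1 ≤ n}) '' {N : Marked n | ∀ w ∈ W, w ∈ N.sub}, ?_, ?_⟩
  · apply isOpenMap_sigmaMk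
    have : {N : Marked n | ∀ w ∈ W, w ∈ N.sub} = ⋂ w ∈ W, {N : Marked n | w ∈ N.sub} := by
      ext N; simp
    rw [this]
    apply isOpen_biInter_finset
    intro w _
    have e : {N : Marked n | w ∈ N.sub} =
        Marked.indicator ⁻¹' ((fun f : FreeGroup (Fin n) → Bool => f w) ⁻¹' {true}) := by
      ext N
      exact (mem_indicator N w).symm
    rw [e]
    exact isOpen_induced ((isOpen_discrete _).preimage (continuous_apply w))
  · apply Set.eq_singleton_iff_unique_mem.mpr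
    refine ⟨⟨⟨⟨ψ₀.ker, inferInstance⟩, ?_, rfl⟩, pt_mem n hn ψ₀ hψ₀⟩, ?_⟩
    · intro w hw
      exact hW w hw
    · rintro _ ⟨⟨N, hN, rfl⟩, hx⟩
      obtain ⟨ψ, hψ, hker⟩ := exists_surj _ hx
      have : ψ.ker = ψ₀.ker := by
        apply h ψ hψ
        intro w hw
        have : w ∈ ψ.ker := by rw [hker]; exact hN w hw
        exact this
      have hN' : N = ⟨ψ₀.ker, inferInstance⟩ := by
        apply Marked.ext
        show N.sub = ψ₀.ker
        rw [← this]
        exact hker.symm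
      rw [hN']
      rfl

theorem condensed_of {G : Type*} [Group G] (m : ℕ)
    (ψ₀ : FreeGroup (Fin m) →* G) (hψ₀ : Function.Surjective ψ₀)
    (h : ∀ W : Finset (FreeGroup (Fin m)), ∃ ψ : FreeGroup (Fin m) →* G, Function.Surjective ψ ∧
      (∀ w ∈ W, ψ w = 1 ↔ ψ₀ w = 1) ∧ ψ.ker ≠ ψ₀.ker) : Condensed G := by
  classical
  rintro x hx ⟨U, hU, hUx⟩
  obtain ⟨φ, hφ, hφker⟩ := exists_surj x hx
  obtain ⟨⟨n, hn⟩, N⟩ := x
  simp only at φ hφ hφker
  -- transition maps
  choose ωw hωw using fun i : Fin n => hψ₀ (φ (FreeGroup.of i))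
  choose νw hνw using fun j : Fin m => hφ (ψ₀ (FreeGroup.of j))
  set ω : FreeGroup (Fin n) →* FreeGroup (Fin m) := FreeGroup.lift ωw with hω
  set ν : FreeGroup (Fin m) →* FreeGroup (Fin n) := FreeGroup.lift νw with hν
  have h1 : ψ₀.comp ω = φ := by
    ext i; simp [hω, hωw]
  have h2 : φ.comp ν = ψ₀ := by
    ext i; simp [hν, hνw]
  have hmem : (⟨⟨n, hn⟩, N⟩ : MarkedSpace) ∈ U := by
    have : (⟨⟨n, hn⟩, N⟩ : MarkedSpace) ∈ U ∩ isoClass G := by rw [hUx]; rfl
    exact this.1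
  have hopen : IsOpen {K : Marked n | (⟨⟨n, hn⟩, K⟩ : MarkedSpace) ∈ U} :=
    hU.preimage (continuous_sigmaMk (ι := {n : ℕ // 1 ≤ n}) (σ := fun n => Marked n.1) (i := ⟨n, hn⟩))
  obtain ⟨V, hV, hVe⟩ := isOpen_induced_iff.mp hopen
  have hNV : N.indicator ∈ V := by
    have : N ∈ Marked.indicator ⁻¹' V := by rw [hVe]; exact hmem
    exact this
  obtain ⟨I, u, hu, hIV⟩ := isOpen_pi_iff.mp hV _ hNV
  obtain ⟨ψ, hψs, hψW, hψne⟩ := h (I.image ω ∪
    (Finset.univ : Finset (Fin m)).image (fun j => ω (νw j) * (FreeGroup.of j)⁻¹))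
  have h3 : (ψ.comp ω).comp ν = ψ := by
    ext j
    have hj := (hψW (ω (νw j) * (FreeGroup.of j)⁻¹)
      (Finset.mem_union_right _ (Finset.mem_image_of_mem _ (Finset.mem_univ j)))).mpr (by
        rw [map_mul, map_inv, mul_inv_eq_one]
        have := hνw j
        rw [← h1] at this
        exact this)
    rw [map_mul, map_inv, mul_inv_eq_one] at hj
    simpa [hν] using hj
  have hsurj : Function.Surjective (ψ.comp ω) := by
    intro g
    obtain ⟨w, hw⟩ := hψs g
    refine ⟨ν w, ?_⟩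
    rw [← hw]
    exact congrArg (fun f : FreeGroup (Fin m) →* G => f w) h3
  have hin : pt n hn (ψ.comp ω) ∈ U ∩ isoClass G := by
    refine ⟨?_, pt_mem n hn _ hsurj⟩
    have : (⟨(ψ.comp ω).ker, inferInstance⟩ : Marked n) ∈ Marked.indicator ⁻¹' V := by
      apply hIV
      intro w hw
      have e : Marked.indicator (⟨(ψ.comp ω).ker, inferInstance⟩ : Marked n) w = N.indicator w := by
        have a := hψW (ω w) (Finset.mem_union_left _ (Finset.mem_image_of_mem _ hw))
        have b : ψ₀ (ω w) = φ w := congrArg (fun f : FreeGroup (Fin n) →* G => f w) h1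
        rw [Bool.eq_iff_iff, mem_indicator, mem_indicator]
        show (ψ.comp ω) w = 1 ↔ w ∈ N.sub
        rw [← hφker, MonoidHom.mem_ker, ← b]
        exact a
      rw [e]
      exact (hu w hw).2
    rw [hVe] at this
    exact this
  rw [hUx] at hin
  have hker : (ψ.comp ω).ker = φ.ker := by
    rw [hφker]
    have : (⟨⟨n, hn⟩, ⟨(ψ.comp ω).ker, inferInstance⟩⟩ : MarkedSpace) = ⟨⟨n, hn⟩, N⟩ := hin
    have h4 := (Sigma.mk.injEq _ _ _ _).mp this
    have h5 := eq_of_heq h4.2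
    exact congrArg Marked.sub h5
  apply hψne
  ext r
  rw [MonoidHom.mem_ker, MonoidHom.mem_ker, ← h3, ← h2]
  show (ν r) ∈ (ψ.comp ω).ker ↔ (ν r) ∈ φ.ker
  rw [hker]

/-- A surjective homomorphism with finite kernel is a quasi-isometry. -/
theorem wordLen_spec {G : Type*} [Group G] {S : Set G} (hS : Subgroup.closure S = ⊤) (g : G) :
    ∃ l : List G, l.length = wordLen S g ∧ (∀ s ∈ l, s ∈ S ∨ s⁻¹ ∈ S) ∧ l.prod = g := by
  have hne : {n | ∃ l : List G, l.length = n ∧ (∀ s ∈ l, s ∈ S ∨ s⁻¹ ∈ S) ∧ l.prod = g}.Nonempty := by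
    have hg : g ∈ Subgroup.closure S := by rw [hS]; trivial
    induction hg using Subgroup.closure_induction_right with
    | one => exact ⟨0, [], rfl, by simp, rfl⟩
    | mul_right x hx s hs ih =>
      obtain ⟨n, l, h1, h2, h3⟩ := ih
      refine ⟨_, l ++ [s], rfl, ?_, by simp [h3]⟩
      intro t ht
      rcases List.mem_append.mp ht with h | h
      · exact h2 t h
      · rw [List.mem_singleton] at h; subst h; exact Or.inl hs
    | mul_inv_cancel x hx s hs ih =>
      obtain ⟨n, l, h1, h2, h3⟩ := ih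
      refine ⟨_, l ++ [s⁻¹], rfl, ?_, by simp [h3]⟩
      intro t ht
      rcases List.mem_append.mp ht with h | h
      · exact h2 t h
      · rw [List.mem_singleton] at h; subst h; right; rw [inv_inv]; exact hs
  exact Nat.sInf_mem hne

theorem wordLen_le {G : Type*} [Group G] {S : Set G} (l : List G)
    (hl : ∀ s ∈ l, s ∈ S ∨ s⁻¹ ∈ S) : wordLen S l.prod ≤ l.length :=
  Nat.sInf_le ⟨l, rfl, hl, rfl⟩

theorem wordLen_mul {G : Type*} [Group G] {S : Set G} (hS : Subgroup.closure S = ⊤) (g h : G) :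
    wordLen S (g * h) ≤ wordLen S g + wordLen S h := by
  obtain ⟨l, h1, h2, h3⟩ := wordLen_spec hS g
  obtain ⟨l', h1', h2', h3'⟩ := wordLen_spec hS h
  have := wordLen_le (S := S) (l ++ l') (by
    intro s hs
    rcases List.mem_append.mp hs with h | h
    · exact h2 s h
    · exact h2' s h)
  rw [List.prod_append, h3, h3', List.length_append, h1, h1'] at this
  exact this

theorem wordLen_one {G : Type*} [Group G] {S : Set G} : wordLen S (1 : G) = 0 := by
  have := wordLen_le (S := S) ([] : List G) (by simp)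
  simpa using this

theorem quasiIsometric_of_surj {G H : Type*} [Group G] [Group H] (φ : G →* H)
    (hφ : Function.Surjective φ) (hker : (φ.ker : Set G).Finite) : QuasiIsometric G H := by
  classical
  intro S T hSf hTf hS hT
  -- bound for images of generators
  obtain ⟨K1, hK1⟩ := ((hSf.union (hSf.image (·⁻¹))).image (fun s => wordLen T (φ s))).bddAbove
  have hK1' : ∀ s, s ∈ S ∨ s⁻¹ ∈ S → wordLen T (φ s) ≤ K1 := by
    intro s hs
    apply hK1
    refine ⟨s, ?_, rfl⟩
    rcases hs with h | h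
    · exact Or.inl h
    · exact Or.inr ⟨s⁻¹, h, inv_inv s⟩
  have hub : ∀ g, wordLen T (φ g) ≤ K1 * wordLen S g := by
    intro g
    obtain ⟨l, h1, h2, h3⟩ := wordLen_spec hS g
    rw [← h1, ← h3]
    clear h1 h3
    induction l with
    | nil => simp [wordLen_one]
    | cons s l ih =>
      rw [List.prod_cons, map_mul, List.length_cons]
      have a := wordLen_mul hT (φ s) (φ l.prod)
      have b := hK1' s (h2 s (by simp))
      have c := ih (fun s' hs' => h2 s' (by simp [hs']))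
      calc _ ≤ K1 + K1 * l.length := by omega
        _ = K1 * (l.length + 1) := by ring
  -- lifts of generators
  choose lft hlft using hφ
  obtain ⟨K2, hK2⟩ := ((hTf.union (hTf.image (·⁻¹))).image (fun t => wordLen S (lft t))).bddAbove
  have hK2' : ∀ t, t ∈ T ∨ t⁻¹ ∈ T → wordLen S (lft t) ≤ K2 := by
    intro s hs
    apply hK2
    refine ⟨s, ?_, rfl⟩
    rcases hs with h | h
    · exact Or.inl h
    · exact Or.inr ⟨s⁻¹, h, inv_inv s⟩
  obtain ⟨K3, hK3⟩ := (hker.image (fun k => wordLen S k)).bddAbove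
  have hlb : ∀ g, wordLen S g ≤ K2 * wordLen T (φ g) + K3 := by
    intro g
    obtain ⟨l, h1, h2, h3⟩ := wordLen_spec hT (φ g)
    rw [← h1]
    have hp : ∃ p : G, φ p = l.prod ∧ wordLen S p ≤ K2 * l.length := by
      clear h1 h3
      induction l with
      | nil => exact ⟨1, by simp, by simp [wordLen_one]⟩
      | cons t l ih =>
        obtain ⟨p, hp1, hp2⟩ := ih (fun s' hs' => h2 s' (by simp [hs']))
        refine ⟨lft t * p, by rw [map_mul, hlft, hp1, List.prod_cons], ?_⟩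
        have a := wordLen_mul hS (lft t) p
        have b := hK2' t (h2 t (by simp))
        rw [List.length_cons]
        calc _ ≤ K2 + K2 * l.length := by omega
          _ = K2 * (l.length + 1) := by ring
    obtain ⟨p, hp1, hp2⟩ := hp
    have hk : p⁻¹ * g ∈ φ.ker := by
      rw [MonoidHom.mem_ker, map_mul, map_inv, hp1, h3]; simp
    have a := wordLen_mul hS p (p⁻¹ * g)
    rw [mul_inv_cancel_left] at a
    have b : wordLen S (p⁻¹ * g) ≤ K3 := hK3 ⟨_, hk, rfl⟩
    omega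
  refine ⟨φ, (K1 : ℝ) + K2 + 1, K3, ?_, by positivity, ?_, ?_⟩
  · have : (0 : ℝ) ≤ K1 := by positivity
    have : (0 : ℝ) ≤ K2 := by positivity
    linarith
  · intro x y
    have hA : (0 : ℝ) < (K1 : ℝ) + K2 + 1 := by positivity
    have e : (φ x)⁻¹ * φ y = φ (x⁻¹ * y) := by rw [map_mul, map_inv]
    unfold cayleyDist
    rw [e]
    have u1 : (wordLen T (φ (x⁻¹ * y)) : ℝ) ≤ K1 * wordLen S (x⁻¹ * y) := by
      exact_mod_cast hub (x⁻¹ * y)
    have u2 : (wordLen S (x⁻¹ * y) : ℝ) ≤ K2 * wordLen T (φ (x⁻¹ * y)) + K3 := by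
      exact_mod_cast hlb (x⁻¹ * y)
    have nn1 : (0 : ℝ) ≤ wordLen S (x⁻¹ * y) := by positivity
    have nn2 : (0 : ℝ) ≤ wordLen T (φ (x⁻¹ * y)) := by positivity
    have k1 : (0 : ℝ) ≤ K1 := by positivity
    have k2 : (0 : ℝ) ≤ K2 := by positivity
    have k3 : (0 : ℝ) ≤ K3 := by positivity
    constructor
    · rw [sub_le_iff_le_add, inv_mul_le_iff₀ hA]
      nlinarith [mul_nonneg k1 nn2, mul_nonneg k1 k3, mul_nonneg k2 k3]
    · nlinarith [mul_nonneg k2 nn1]
  · intro z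
    refine ⟨lft z, ?_⟩
    unfold cayleyDist
    rw [hlft, inv_mul_cancel, wordLen_one, Nat.cast_zero]
    positivity

end Pool.Agent.H71.Cond
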