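import Mathlib

set_option autoImplicit false

namespace Pool.Agent.H71.Hall

open LaurentPolynomial

/-- Laurent polynomials over the field with two elements. -/
abbrev R := LaurentPolynomial (ZMod 2)

theorem two_eq : (2 : R) = 0 := by
  have h : (C (2 : ZMod 2) : R) = 2 := map_ofNat C 2
  rw [← h, show (2 : ZMod 2) = 0 from rfl, map_zero]

theorem add_self (p : R) : p + p = 0 := by
  linear_combination p * two_eq

theorem neg_eq (p : R) : -p = p := by
  linear_combination (-p) * two_eq

theorem T_mul_T_neg (n : ℤ) : (T n : R) * T (-n) = 1 := by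
  rw [← T_add, add_neg_cancel, T_zero]

theorem coeff_T_mul (n : ℤ) (h : R) (k : ℤ) : (T n * h).coeff k = h.coeff (k - n) := by
  unfold T
  rw [AddMonoidAlgebra.coeff_single_mul_apply]
  rw [one_mul]; congr 1; ring

/-- Laurent polynomials supported in `J`. -/
def MJ (J : Set ℤ) : AddSubgroup R where
  carrier := {h | ∀ k, k ∉ J → h.coeff k = 0}
  zero_mem' := by intro k _; simp
  add_mem' := by
    intro a b ha hb k hk
    simp [ha k hk, hb k hk]
  neg_mem' := by
    intro a ha k hk
    simp [ha k hk]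

theorem mem_MJ {J : Set ℤ} {h : R} : h ∈ MJ J ↔ ∀ k, k ∉ J → h.coeff k = 0 := Iff.rfl

theorem T_mul_mem_MJ {J : Set ℤ} {n : ℤ} {h : R} :
    T n * h ∈ MJ J ↔ ∀ k, k + n ∉ J → h.coeff k = 0 := by
  rw [mem_MJ]
  constructor
  · intro H k hk
    have := H _ hk
    rw [coeff_T_mul] at this
    simpa using this
  · intro H k hk
    rw [coeff_T_mul]
    apply H
    simpa using hk

theorem T_mem_MJ {J : Set ℤ} {n : ℤ} : (T n : R) ∈ MJ J ↔ n ∈ J := by
  rw [mem_MJ]
  constructor
  · intro H
    by_contra hn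
    have := H n hn
    simp at this
  · intro hn k hk
    rw [T_apply, if_neg]
    rintro rfl
    exact hk hn

/-- If `P` and `(T 1 + T (-1)) P` are both supported in a set without two consecutive
integers, then `P = 0`. -/
theorem eq_zero_of_mem {J : Set ℤ} (hJ : ∀ k, k ∈ J → k + 1 ∉ J) {P : R}
    (h1 : P ∈ MJ J) (h2 : (T 1 + T (-1)) * P ∈ MJ J) : P = 0 := by
  by_contra hP
  have hne : P.coeff.support.Nonempty := by
    rw [Finset.nonempty_iff_ne_empty]
    intro h
    rw [Finsupp.support_eq_empty] at h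
    apply hP
    ext k
    rw [h]; rfl
  set d := P.coeff.support.max' hne with hd
  have hdm : P.coeff d ≠ 0 := by
    have := P.coeff.support.max'_mem hne
    rw [Finsupp.mem_support_iff] at this
    exact this
  have hdJ : d ∈ J := by
    by_contra h
    exact hdm (mem_MJ.mp h1 d h)
  have hd2 : P.coeff (d + 2) = 0 := by
    by_contra h
    have := P.coeff.support.le_max' (d + 2) (Finsupp.mem_support_iff.mpr h)
    rw [← hd] at this
    linarith
  have := mem_MJ.mp h2 (d + 1) (hJ d hdJ)
  rw [add_mul, AddMonoidAlgebra.coeff_add, Finsupp.add_apply, coeff_T_mul, coeff_T_mul] at this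
  rw [show d + 1 - 1 = d by ring, show d + 1 - -1 = d + 2 by ring, hd2, add_zero] at this
  exact hdm this

theorem eq_T_of_dvd_one {f : R} (h : f ∣ 1) : ∃ c : ℤ, f = T c := by
  obtain ⟨g, hg⟩ := h
  obtain ⟨n, f', hf'⟩ := exists_T_pow f
  obtain ⟨m, g', hg'⟩ := exists_T_pow g
  have h1 : Polynomial.toLaurent (f' * g') = Polynomial.toLaurent (Polynomial.X ^ (n + m)) := by
    rw [map_mul, hf', hg', Polynomial.toLaurent_X_pow]
    push_cast
    rw [T_add]
    linear_combination (-(T (n:ℤ) * T (m:ℤ) : R)) * hg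
  have h2 : f' * g' = Polynomial.X ^ (n + m) := Polynomial.toLaurent_injective h1
  have h3 : f' ∣ Polynomial.X ^ (n + m) := ⟨g', h2.symm⟩
  obtain ⟨i, -, u, hu⟩ := (dvd_prime_pow Polynomial.prime_X _).mp h3
  obtain ⟨r, hr, hru⟩ := Polynomial.isUnit_iff.mp u.isUnit
  have hr1 : r = 1 := by
    exact (by decide : ∀ r : ZMod 2, r ≠ 0 → r = 1) r hr.ne_zero
  rw [← hru, hr1, map_one, mul_one] at hu
  rw [hu, Polynomial.toLaurent_X_pow] at hf'
  refine ⟨i - n, ?_⟩
  rw [sub_eq_add_neg, T_add, hf', mul_assoc, T_mul_T_neg, mul_one]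

/-- The augmentation. -/
noncomputable def eps : R →+* ZMod 2 := eval₂ (RingHom.id (ZMod 2)) 1

@[simp] theorem eps_T (n : ℤ) : eps (T n) = 1 := by
  unfold eps; rw [eval₂_T]; simp

@[simp] theorem eps_C (a : ZMod 2) : eps (C a) = a := by
  unfold eps; rw [eval₂_C]; rfl

theorem dvd_T_add_one (n : ℤ) : (T 1 + 1 : R) ∣ T n + 1 := by
  have hnat : ∀ n : ℕ, (T 1 + 1 : R) ∣ T (n : ℤ) + 1 := by
    intro n
    have := sub_dvd_pow_sub_pow (T 1 : R) 1 n
    rw [T_pow, one_pow, mul_one, sub_eq_add_neg, sub_eq_add_neg, neg_eq] at this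
    exact this
  obtain ⟨m, rfl | rfl⟩ := n.eq_nat_or_neg
  · exact hnat m
  · have e : (T (-(m:ℤ)) + 1 : R) = T (-(m:ℤ)) * (T (m:ℤ) + 1) := by
      rw [mul_add, mul_one, mul_comm, T_mul_T_neg]; ring
    rw [e]
    exact (hnat m).mul_left _

theorem exists_lam (g : R) : ∃ l : R, (T 1 + 1) * l = g + C (eps g) := by
  induction g using LaurentPolynomial.induction_on' with
  | add p q hp hq =>
    obtain ⟨a, ha⟩ := hp
    obtain ⟨b, hb⟩ := hq
    refine ⟨a + b, ?_⟩
    rw [mul_add, ha, hb, map_add, map_add]; ring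
  | C_mul_T n a =>
    obtain ⟨s, hs⟩ := dvd_T_add_one n
    refine ⟨C a * s, ?_⟩
    rw [map_mul, eps_C, eps_T, mul_one]
    linear_combination (-(C a : R)) * hs

/-- `lam g = (g + eps g) / (T 1 + 1)`. -/
noncomputable def lam (g : R) : R := Classical.choose (exists_lam g)

theorem lam_spec (g : R) : (T 1 + 1) * lam g = g + C (eps g) := Classical.choose_spec (exists_lam g)

theorem T_one_add_one_ne : (T 1 + 1 : R) ≠ 0 := by
  intro h
  have h1 := congrArg (fun p : R => p.coeff 1) h
  have h2 : (1 : R).coeff 1 = 0 := by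
    rw [← T_zero, T_apply]; simp
  simp only [AddMonoidAlgebra.coeff_add, Finsupp.add_apply, T_apply, h2] at h1
  simp at h1

theorem lam_unique {g l : R} (h : (T 1 + 1) * l = g + C (eps g)) : lam g = l := by
  apply mul_left_cancel₀ T_one_add_one_ne
  rw [lam_spec, h]

theorem lam_add (g g' : R) : lam (g + g') = lam g + lam g' := by
  apply lam_unique
  rw [mul_add, lam_spec, lam_spec, map_add, map_add]; ring

theorem lam_one : lam 1 = 0 := by
  apply lam_unique
  rw [map_one, map_one, mul_zero, add_self]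

theorem lam_zero : lam 0 = 0 := by
  apply lam_unique
  simp

/-- `lam (T n * g) = lam g + lam (T n) * g`. -/
theorem lam_T_mul (n : ℤ) (g : R) : lam (T n * g) = lam g + lam (T n) * g := by
  apply lam_unique
  rw [mul_add, lam_spec, ← mul_assoc, lam_spec, map_mul, eps_T, one_mul, map_one]
  linear_combination g * two_eq

theorem lam_T_one : lam (T 1) = 1 := by
  apply lam_unique
  rw [eps_T, map_one, mul_one]

end Pool.Agent.H71.Hall
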