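import Mathlib
import Pool.Agent.H71.HallRing

set_option autoImplicit false

namespace Pool.Agent.H71.Hall

open LaurentPolynomial

/-- The group `Γ_M`: underlying set `R × R × (R/M) × ℤ`. -/
@[ext] structure Gam (M : AddSubgroup R) where
  f : R
  g : R
  h : R ⧸ M
  n : ℤ

namespace Gam

variable {M : AddSubgroup R}

noncomputable instance : Mul (Gam M) :=
  ⟨fun p q => ⟨q.f + T q.n * p.f, p.g + T p.n * q.g,
    p.h + q.h + ((p.f * q.g : R) : R ⧸ M), p.n + q.n⟩⟩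
noncomputable instance : One (Gam M) := ⟨⟨0, 0, 0, 0⟩⟩
noncomputable instance : Inv (Gam M) :=
  ⟨fun p => ⟨-(T (-p.n) * p.f), -(T (-p.n) * p.g),
    -p.h + ((T (-p.n) * p.f * p.g : R) : R ⧸ M), -p.n⟩⟩

@[simp] theorem mul_f (p q : Gam M) : (p * q).f = q.f + T q.n * p.f := rfl
@[simp] theorem mul_g (p q : Gam M) : (p * q).g = p.g + T p.n * q.g := rfl
@[simp] theorem mul_h (p q : Gam M) :
    (p * q).h = p.h + q.h + ((p.f * q.g : R) : R ⧸ M) := rfl
@[simp] theorem mul_n (p q : Gam M) : (p * q).n = p.n + q.n := rfl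
@[simp] theorem one_f : (1 : Gam M).f = 0 := rfl
@[simp] theorem one_g : (1 : Gam M).g = 0 := rfl
@[simp] theorem one_h : (1 : Gam M).h = 0 := rfl
@[simp] theorem one_n : (1 : Gam M).n = 0 := rfl
@[simp] theorem inv_f (p : Gam M) : p⁻¹.f = -(T (-p.n) * p.f) := rfl
@[simp] theorem inv_g (p : Gam M) : p⁻¹.g = -(T (-p.n) * p.g) := rfl
@[simp] theorem inv_h (p : Gam M) :
    p⁻¹.h = -p.h + ((T (-p.n) * p.f * p.g : R) : R ⧸ M) := rfl
@[simp] theorem inv_n (p : Gam M) : p⁻¹.n = -p.n := rfl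

theorem mk_congr {a b : R} (h : a = b) : ((a : R) : R ⧸ M) = (b : R ⧸ M) := by rw [h]

noncomputable instance : Group (Gam M) := Group.ofLeftAxioms
  (by
    intro p q r
    ext1
    · simp only [mul_f, mul_n]; rw [T_add]; ring
    · simp only [mul_g, mul_n]; rw [T_add]; ring
    · simp only [mul_h, mul_f, mul_g]
      have e : p.f * q.g + (q.f + T q.n * p.f) * r.g
          = q.f * r.g + p.f * (q.g + T q.n * r.g) := by ring
      have e' := mk_congr (M := M) e
      rw [QuotientAddGroup.mk_add, QuotientAddGroup.mk_add] at e'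
      linear_combination (norm := skip) e'
      abel
    · simp only [mul_n]; ring)
  (by
    intro p
    ext1 <;> simp)
  (by
    intro p
    ext1
    · simp only [mul_f, inv_f, one_f]
      linear_combination (-p.f) * T_mul_T_neg p.n
    · simp only [mul_g, inv_g, one_g, inv_n]
      ring
    · simp only [mul_h, inv_h, one_h, inv_f]
      rw [neg_mul, QuotientAddGroup.mk_neg]; abel
    · simp)

theorem h_add_self (x : R ⧸ M) : x + x = 0 := by
  induction x using QuotientAddGroup.induction_on with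
  | H z => rw [← QuotientAddGroup.mk_add, add_self]; rfl

theorem h_neg (x : R ⧸ M) : -x = x := by
  rw [neg_eq_iff_add_eq_zero]; exact h_add_self x

theorem mk_eq_zero {x : R} : ((x : R) : R ⧸ M) = 0 ↔ x ∈ M := QuotientAddGroup.eq_zero_iff x

/-- conjugation formulas -/
theorem conj_f (u p : Gam M) (hp : p.n = 0) : (u * p * u⁻¹).f = T (-u.n) * p.f := by
  simp only [mul_f, inv_f, inv_n, hp, T_zero]; ring

theorem conj_g (u p : Gam M) (hp : p.n = 0) : (u * p * u⁻¹).g = T u.n * p.g := by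
  simp only [mul_g, inv_g, mul_n, hp, add_zero]
  linear_combination (-u.g) * T_mul_T_neg u.n

theorem conj_n (u p : Gam M) : (u * p * u⁻¹).n = p.n := by
  simp only [mul_n, inv_n]; ring

theorem comm_eq (p q : Gam M) (hp : p.n = 0) (hq : q.n = 0) :
    p * q * p⁻¹ * q⁻¹ = ⟨0, 0, ((p.f * q.g + q.f * p.g : R) : R ⧸ M), 0⟩ := by
  ext1
  · simp only [mul_f, inv_f, inv_n, hp, hq, neg_zero, T_zero]; ring
  · simp only [mul_g, inv_g, inv_n, mul_n, hp, hq, neg_zero, T_zero, add_zero]; ring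
  · simp only [mul_h, inv_h, mul_f, inv_f, inv_g, inv_n, hp, hq, neg_zero, T_zero]
    have e : p.f * q.g + (q.f + 1 * p.f) * (-(1 * p.g)) + (-(1 * p.f) + 1 * (q.f + 1 * p.f)) * (-(1 * q.g))
        + 1 * p.f * p.g + 1 * q.f * q.g
          = (p.f * q.g + q.f * p.g) := by
      linear_combination (-q.f * p.g) * two_eq
    have e' := mk_congr (M := M) e
    simp only [QuotientAddGroup.mk_add] at e' ⊢
    linear_combination (norm := skip) e'
    abel
  · simp only [mul_n, inv_n]; ring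

theorem zpow_n (u : Gam M) (k : ℤ) : (u ^ k).n = k * u.n := by
  induction k using Int.induction_on with
  | zero => simp
  | succ k ih => rw [zpow_add_one, mul_n, ih]; ring
  | pred k ih => rw [zpow_sub_one, mul_n, ih, inv_n]; ring

theorem sq_eq_one {p : Gam M} (h : p * p = 1) : p.n = 0 ∧ p.f * p.g ∈ M := by
  have hn : p.n = 0 := by
    have := congrArg Gam.n h
    simp only [mul_n, one_n] at this
    omega
  refine ⟨hn, ?_⟩
  have := congrArg Gam.h h
  simp only [mul_h, one_h, h_add_self, zero_add] at this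
  exact mk_eq_zero.mp this

/-- the automorphism exchanging `a` and `b` and inverting `t`. -/
noncomputable def rho : Gam M ≃* Gam M where
  toFun p := ⟨T (-p.n) * p.g, T (-p.n) * p.f, p.h + ((T (-p.n) * p.f * p.g : R) : R ⧸ M), -p.n⟩
  invFun p := ⟨T (-p.n) * p.g, T (-p.n) * p.f, p.h + ((T (-p.n) * p.f * p.g : R) : R ⧸ M), -p.n⟩
  left_inv := by
    intro p
    ext1
    · simp only [neg_neg]
      linear_combination p.f * T_mul_T_neg p.n
    · simp only [neg_neg]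
      linear_combination p.g * T_mul_T_neg p.n
    · simp only [neg_neg]
      have e : T (-p.n) * p.f * p.g + T p.n * (T (-p.n) * p.g) * (T (-p.n) * p.f) = 0 := by
        linear_combination (T (-p.n) * p.f * p.g) * T_mul_T_neg p.n
          + (T (-p.n) * p.f * p.g) * two_eq
      have e' := mk_congr (M := M) e
      simp only [QuotientAddGroup.mk_add, QuotientAddGroup.mk_zero] at e'
      rw [add_assoc, e', add_zero]
    · simp
  right_inv := by
    intro p
    ext1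
    · simp only [neg_neg]
      linear_combination p.f * T_mul_T_neg p.n
    · simp only [neg_neg]
      linear_combination p.g * T_mul_T_neg p.n
    · simp only [neg_neg]
      have e : T (-p.n) * p.f * p.g + T p.n * (T (-p.n) * p.g) * (T (-p.n) * p.f) = 0 := by
        linear_combination (T (-p.n) * p.f * p.g) * T_mul_T_neg p.n
          + (T (-p.n) * p.f * p.g) * two_eq
      have e' := mk_congr (M := M) e
      simp only [QuotientAddGroup.mk_add, QuotientAddGroup.mk_zero] at e'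
      rw [add_assoc, e', add_zero]
    · simp
  map_mul' := by
    intro p q
    ext1
    · simp only [mul_g, mul_n, mul_f, neg_add, T_add]
      linear_combination (T (-q.n) * q.g) * T_mul_T_neg p.n
    · simp only [mul_g, mul_n, mul_f, neg_add, T_add]
      linear_combination (T (-p.n) * p.f) * T_mul_T_neg q.n
    · simp only [mul_g, mul_n, mul_f, mul_h, neg_add, T_add]
      have e : p.f * q.g + T (-p.n) * T (-q.n) * (q.f + T q.n * p.f) * (p.g + T p.n * q.g)
          = T (-p.n) * p.f * p.g + T (-q.n) * q.f * q.g + T (-p.n) * p.g * (T (-q.n) * q.f) := by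
        linear_combination (T (-q.n) * q.f * q.g + p.f * q.g * T q.n * T (-q.n)) * T_mul_T_neg p.n
          + (T (-p.n) * p.f * p.g + p.f * q.g) * T_mul_T_neg q.n + p.f * q.g * two_eq
      have e' := mk_congr (M := M) e
      simp only [QuotientAddGroup.mk_add] at e' ⊢
      linear_combination (norm := skip) e'
      abel
    · simp only [mul_n]; ring

theorem rho_apply (p : Gam M) : rho p =
    ⟨T (-p.n) * p.g, T (-p.n) * p.f, p.h + ((T (-p.n) * p.f * p.g : R) : R ⧸ M), -p.n⟩ := rfl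

/-- the automorphism fixing `a`, `b` and sending `t` to `t * (x,0,0,0)`. -/
noncomputable def theta (x : R) : Gam M ≃* Gam M where
  toFun p := ⟨p.f + x * lam (T p.n), p.g, p.h + ((x * lam p.g : R) : R ⧸ M), p.n⟩
  invFun p := ⟨p.f + x * lam (T p.n), p.g, p.h + ((x * lam p.g : R) : R ⧸ M), p.n⟩
  left_inv := by
    intro p
    ext1
    · show p.f + x * lam (T p.n) + x * lam (T p.n) = p.f
      rw [add_assoc, add_self, add_zero]
    · rfl
    · show p.h + ((x * lam p.g : R) : R ⧸ M) + ((x * lam p.g : R) : R ⧸ M) = p.h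
      rw [add_assoc, h_add_self, add_zero]
    · rfl
  right_inv := by
    intro p
    ext1
    · show p.f + x * lam (T p.n) + x * lam (T p.n) = p.f
      rw [add_assoc, add_self, add_zero]
    · rfl
    · show p.h + ((x * lam p.g : R) : R ⧸ M) + ((x * lam p.g : R) : R ⧸ M) = p.h
      rw [add_assoc, h_add_self, add_zero]
    · rfl
  map_mul' := by
    intro p q
    ext1
    · simp only [mul_f, mul_n]
      rw [add_comm p.n q.n, T_add, lam_T_mul q.n (T p.n)]
      have h1 := lam_T_mul p.n (T q.n)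
      have h2 := lam_T_mul q.n (T p.n)
      rw [← T_add] at h1 h2
      rw [add_comm q.n p.n] at h2
      linear_combination x * (h1 - h2)
    · simp only [mul_g]
    · simp only [mul_h, mul_g]
      rw [lam_add, lam_T_mul]
      have e : p.f * q.g + x * (lam p.g + (lam q.g + lam (T p.n) * q.g))
          = x * lam p.g + x * lam q.g + (p.f + x * lam (T p.n)) * q.g := by ring
      have e' := mk_congr (M := M) e
      simp only [QuotientAddGroup.mk_add] at e' ⊢
      linear_combination (norm := skip) e'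
      abel
    · simp only [mul_n]

theorem theta_apply (x : R) (p : Gam M) : theta x p =
    ⟨p.f + x * lam (T p.n), p.g, p.h + ((x * lam p.g : R) : R ⧸ M), p.n⟩ := rfl

/-- central automorphisms -/
noncomputable def chi (c1 c2 c3 : R) : Gam M ≃* Gam M where
  toFun p := ⟨p.f, p.g,
    p.h + ((C (eps p.f) * c1 + C (eps p.g) * c2 + p.n • c3 : R) : R ⧸ M), p.n⟩
  invFun p := ⟨p.f, p.g,
    p.h + ((C (eps p.f) * c1 + C (eps p.g) * c2 + p.n • c3 : R) : R ⧸ M), p.n⟩
  left_inv := by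
    intro p
    ext1
    · rfl
    · rfl
    · simp only
      rw [add_assoc, h_add_self, add_zero]
    · rfl
  right_inv := by
    intro p
    ext1
    · rfl
    · rfl
    · simp only
      rw [add_assoc, h_add_self, add_zero]
    · rfl
  map_mul' := by
    intro p q
    ext1
    · simp only [mul_f]
    · simp only [mul_g]
    · simp only [mul_h, mul_g, mul_f, mul_n, map_add, map_mul, eps_T, one_mul, add_zsmul, add_mul]
      simp only [QuotientAddGroup.mk_add]
      abel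
    · simp only [mul_n]

theorem chi_apply (c1 c2 c3 : R) (p : Gam M) : chi c1 c2 c3 p = ⟨p.f, p.g,
    p.h + ((C (eps p.f) * c1 + C (eps p.g) * c2 + p.n • c3 : R) : R ⧸ M), p.n⟩ := rfl

/-- generators -/
noncomputable def ga : Gam M := ⟨1, 0, 0, 0⟩
noncomputable def gb : Gam M := ⟨0, 1, 0, 0⟩
noncomputable def gt : Gam M := ⟨0, 0, 0, 1⟩

theorem gt_zpow (k : ℤ) : (gt : Gam M) ^ k = ⟨0, 0, 0, k⟩ := by
  induction k using Int.induction_on with
  | zero => simp; rfl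
  | succ k ih =>
    rw [zpow_add_one, ih]
    ext1 <;> simp [gt]
  | pred k ih =>
    rw [zpow_sub_one, ih]
    ext1
    · simp [gt]
    · simp [gt]
    · simp [gt]
    · simp [gt]; ring

theorem lam_T_neg_one : lam (T (-1)) = T (-1) := by
  apply lam_unique
  rw [eps_T, map_one]
  linear_combination T_mul_T_neg 1

/-- A triple that looks like the standard one modulo the centre and the choice of
a lift of `t` is conjugate to the standard triple by an automorphism. -/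
theorem normalize0 (α β τ : Gam M) (hαf : α.f = 1) (hαg : α.g = 0) (hαn : α.n = 0)
    (hβf : β.f = 0) (hβg : β.g = 1) (hβn : β.n = 0) (hτn : τ.n = 1) :
    ∃ Ψ : Gam M ≃* Gam M, Ψ α = ga ∧ Ψ β = gb ∧ Ψ τ = gt := by
  obtain ⟨αf, αg, αh, αn⟩ := α
  obtain ⟨βf, βg, βh, βn⟩ := β
  obtain ⟨x, y, τh, τn⟩ := τ
  simp only at hαf hαg hαn hβf hβg hβn hτn
  subst hαf hαg hαn hβf hβg hβn hτn
  -- stage one
  have s1 : ∃ Ψ : Gam M ≃* Gam M, Ψ ⟨1, 0, αh, 0⟩ = ⟨1, 0, αh, 0⟩ ∧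
      Ψ ⟨0, 1, βh, 0⟩ = ⟨0, 1, βh, 0⟩ ∧ ∃ h', Ψ ⟨x, y, τh, 1⟩ = ⟨x, 0, h', 1⟩ := by
    refine ⟨(rho.trans (theta y)).trans rho, ?_, ?_, ?_⟩
    · simp only [MulEquiv.trans_apply, rho_apply, theta_apply, neg_zero, T_zero, lam_one,
        mul_zero, add_zero, mul_one]
      simp
    · simp only [MulEquiv.trans_apply, rho_apply, theta_apply, neg_zero, T_zero, lam_one,
        lam_zero, mul_zero, add_zero, mul_one]
      simp
    · refine ⟨(((rho.trans (theta y)).trans rho) (⟨x, y, τh, 1⟩ : Gam M)).h, ?_⟩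
      ext1
      · simp only [MulEquiv.trans_apply, rho_apply, theta_apply, neg_neg]
        linear_combination x * T_mul_T_neg 1
      · simp only [MulEquiv.trans_apply, rho_apply, theta_apply, neg_neg, lam_T_neg_one]
        linear_combination (T 1 * T (-1) * y) * two_eq
      · rfl
      · simp only [MulEquiv.trans_apply, rho_apply, theta_apply, neg_neg]
  obtain ⟨Ψ1, a1, b1, h1, t1⟩ := s1
  have s2 : ∃ Ψ : Gam M ≃* Gam M, Ψ ⟨1, 0, αh, 0⟩ = ⟨1, 0, αh, 0⟩ ∧
      Ψ ⟨0, 1, βh, 0⟩ = ⟨0, 1, βh, 0⟩ ∧ ∃ h', Ψ ⟨x, 0, h1, 1⟩ = ⟨0, 0, h', 1⟩ := by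
    refine ⟨theta x, ?_, ?_, ?_⟩
    · simp only [theta_apply, T_zero, lam_one, mul_zero, add_zero, lam_zero]
      simp
    · simp only [theta_apply, T_zero, lam_one, mul_zero, add_zero]
      simp
    · refine ⟨(theta x (⟨x, 0, h1, 1⟩ : Gam M)).h, ?_⟩
      ext1
      · simp only [theta_apply, lam_T_one]
        linear_combination x * two_eq
      · rfl
      · rfl
      · rfl
  obtain ⟨Ψ2, a2, b2, h2, t2⟩ := s2
  obtain ⟨c1, rfl⟩ := QuotientAddGroup.mk_surjective αh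
  obtain ⟨c2, rfl⟩ := QuotientAddGroup.mk_surjective βh
  obtain ⟨c3, rfl⟩ := QuotientAddGroup.mk_surjective h2
  refine ⟨(Ψ1.trans Ψ2).trans (chi c1 c2 c3), ?_, ?_, ?_⟩
  · rw [MulEquiv.trans_apply, MulEquiv.trans_apply, a1, a2, chi_apply]
    ext1
    · rfl
    · rfl
    · simp only [map_one, map_zero, one_mul, zero_mul, add_zero, zero_smul]
      exact h_add_self _
    · rfl
  · rw [MulEquiv.trans_apply, MulEquiv.trans_apply, b1, b2, chi_apply]
    ext1
    · rfl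
    · rfl
    · simp only [map_one, map_zero, one_mul, zero_mul, add_zero, zero_add, zero_smul]
      exact h_add_self _
    · rfl
  · rw [MulEquiv.trans_apply, MulEquiv.trans_apply, t1, t2, chi_apply]
    ext1
    · rfl
    · rfl
    · simp only [map_zero, zero_mul, zero_add, one_smul]
      exact h_add_self _
    · rfl

theorem normalize1 (α β τ : Gam M) (c : ℤ) (hαf : α.f = T c) (hαg : α.g = 0) (hαn : α.n = 0)
    (hβf : β.f = 0) (hβg : β.g = T (-c)) (hβn : β.n = 0) (hτn : τ.n = 1) :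
    ∃ Ψ : Gam M ≃* Gam M, Ψ α = ga ∧ Ψ β = gb ∧ Ψ τ = gt := by
  set u : Gam M := gt ^ c with hu
  have hun : u.n = c := by rw [hu, gt_zpow]
  obtain ⟨Ψ, h1, h2, h3⟩ := normalize0 (u * α * u⁻¹) (u * β * u⁻¹) (u * τ * u⁻¹)
    (by rw [conj_f _ _ hαn, hun, hαf, mul_comm, T_mul_T_neg])
    (by rw [conj_g _ _ hαn, hαg, mul_zero])
    (by rw [conj_n, hαn])
    (by rw [conj_f _ _ hβn, hβf, mul_zero])
    (by rw [conj_g _ _ hβn, hun, hβg, T_mul_T_neg])
    (by rw [conj_n, hβn])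
    (by rw [conj_n, hτn])
  exact ⟨(MulAut.conj u).trans Ψ, h1, h2, h3⟩

theorem normalize2 (α β τ : Gam M) (c : ℤ) (hαf : α.f = 0) (hαg : α.g = T c) (hαn : α.n = 0)
    (hβf : β.f = T (-c)) (hβg : β.g = 0) (hβn : β.n = 0) (hτn : τ.n = -1) :
    ∃ Ψ : Gam M ≃* Gam M, Ψ α = ga ∧ Ψ β = gb ∧ Ψ τ = gt := by
  obtain ⟨Ψ, h1, h2, h3⟩ := normalize1 (rho α) (rho β) (rho τ) c
    (by rw [rho_apply]; simp [hαn, hαg])
    (by rw [rho_apply]; simp [hαf])
    (by rw [rho_apply]; simp [hαn])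
    (by rw [rho_apply]; simp [hβg])
    (by rw [rho_apply]; simp [hβn, hβf])
    (by rw [rho_apply]; simp [hβn])
    (by rw [rho_apply]; simp [hτn])
  exact ⟨rho.trans Ψ, h1, h2, h3⟩

/-- `{p : p.n = 0, d ∣ p.f}` -/
noncomputable def subF (M : AddSubgroup R) (d : R) : Subgroup (Gam M) where
  carrier := {p | p.n = 0 ∧ d ∣ p.f}
  one_mem' := by simp
  mul_mem' := by
    rintro p q ⟨h1, h2⟩ ⟨h3, h4⟩
    refine ⟨by simp [h1, h3], ?_⟩
    simp only [mul_f]
    exact dvd_add h4 (h2.mul_left _)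
  inv_mem' := by
    rintro p ⟨h1, h2⟩
    refine ⟨by simp [h1], ?_⟩
    simp only [inv_f]
    exact (h2.mul_left _).neg_right

/-- `{p : p.n = 0, d ∣ p.g}` -/
noncomputable def subG (M : AddSubgroup R) (d : R) : Subgroup (Gam M) where
  carrier := {p | p.n = 0 ∧ d ∣ p.g}
  one_mem' := by simp
  mul_mem' := by
    rintro p q ⟨h1, h2⟩ ⟨h3, h4⟩
    refine ⟨by simp [h1, h3], ?_⟩
    simp only [mul_g]
    exact dvd_add h2 (h4.mul_left _)
  inv_mem' := by
    rintro p ⟨h1, h2⟩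
    refine ⟨by simp [h1], ?_⟩
    simp only [inv_g]
    exact (h2.mul_left _).neg_right

theorem mem_subF {d : R} {p : Gam M} : p ∈ subF M d ↔ p.n = 0 ∧ d ∣ p.f := Iff.rfl
theorem mem_subG {d : R} {p : Gam M} : p ∈ subG M d ↔ p.n = 0 ∧ d ∣ p.g := Iff.rfl

instance (d : R) : (subF M d).Normal := by
  constructor
  rintro p ⟨h1, h2⟩ u
  refine ⟨by rw [conj_n, h1], ?_⟩
  rw [conj_f _ _ h1]
  exact h2.mul_left _

instance (d : R) : (subG M d).Normal := by
  constructor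
  rintro p ⟨h1, h2⟩ u
  refine ⟨by rw [conj_n, h1], ?_⟩
  rw [conj_g _ _ h1]
  exact h2.mul_left _

theorem mem_sup_zpowers {N : Subgroup (Gam M)} [N.Normal] {α β τ : Gam M}
    (hgen : Subgroup.closure {α, β, τ} = ⊤) (hα : α ∈ N) (hβ : β ∈ N) (p : Gam M) :
    ∃ u ∈ N, ∃ k : ℤ, u * τ ^ k = p := by
  have hle : Subgroup.closure {α, β, τ} ≤ N ⊔ Subgroup.zpowers τ := by
    rw [Subgroup.closure_le]
    rintro q (rfl | rfl | rfl)
    · exact Subgroup.mem_sup_left hα
    · exact Subgroup.mem_sup_left hβ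
    · exact Subgroup.mem_sup_right (Subgroup.mem_zpowers _)
  have hp : p ∈ N ⊔ Subgroup.zpowers τ := hle (by rw [hgen]; trivial)
  rw [Subgroup.mem_sup_of_normal_left] at hp
  obtain ⟨u, hu, v, ⟨k, rfl⟩, rfl⟩ := hp
  exact ⟨u, hu, k, rfl⟩

theorem gen_n {α β τ : Gam M} (hgen : Subgroup.closure {α, β, τ} = ⊤) (hα : α.n = 0)
    (hβ : β.n = 0) : τ.n = 1 ∨ τ.n = -1 := by
  obtain ⟨u, hu, k, hk⟩ := mem_sup_zpowers (N := subF M 1) hgen (mem_subF.mpr ⟨hα, one_dvd _⟩)
    (mem_subF.mpr ⟨hβ, one_dvd _⟩) gt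
  have := congrArg Gam.n hk
  rw [mul_n, zpow_n, (mem_subF.mp hu).1] at this
  simp only [gt, zero_add] at this
  have h : τ.n ∣ 1 := ⟨k, by rw [mul_comm]; exact this.symm⟩
  exact Int.isUnit_iff.mp (isUnit_of_dvd_one h)

theorem gen_f {α β τ : Gam M} (hgen : Subgroup.closure {α, β, τ} = ⊤) (hα : α.n = 0)
    (hβ : β.n = 0) (d : R) (h1 : d ∣ α.f) (h2 : d ∣ β.f) : d ∣ 1 := by
  obtain ⟨u, hu, k, hk⟩ := mem_sup_zpowers (N := subF M d) hgen (mem_subF.mpr ⟨hα, h1⟩)
    (mem_subF.mpr ⟨hβ, h2⟩) ga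
  have hn := congrArg Gam.n hk
  rw [mul_n, zpow_n, (mem_subF.mp hu).1] at hn
  simp only [ga, zero_add] at hn
  have hk0 : k = 0 := by
    rcases gen_n hgen hα hβ with h | h <;> rw [h] at hn <;> omega
  subst hk0
  rw [zpow_zero, mul_one] at hk
  rw [hk] at hu
  exact hu.2

theorem gen_g {α β τ : Gam M} (hgen : Subgroup.closure {α, β, τ} = ⊤) (hα : α.n = 0)
    (hβ : β.n = 0) (d : R) (h1 : d ∣ α.g) (h2 : d ∣ β.g) : d ∣ 1 := by
  obtain ⟨u, hu, k, hk⟩ := mem_sup_zpowers (N := subG M d) hgen (mem_subG.mpr ⟨hα, h1⟩)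
    (mem_subG.mpr ⟨hβ, h2⟩) gb
  have hn := congrArg Gam.n hk
  rw [mul_n, zpow_n, (mem_subG.mp hu).1] at hn
  simp only [gb, zero_add] at hn
  have hk0 : k = 0 := by
    rcases gen_n hgen hα hβ with h | h <;> rw [h] at hn <;> omega
  subst hk0
  rw [zpow_zero, mul_one] at hk
  rw [hk] at hu
  exact hu.2

theorem mem_of_comm_eq_one {p q : Gam M} (hp : p.n = 0) (hq : q.n = 0)
    (h : p * q * p⁻¹ * q⁻¹ = 1) : p.f * q.g + q.f * p.g ∈ M := by
  rw [comm_eq p q hp hq] at h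
  exact mk_eq_zero.mp (congrArg Gam.h h)

theorem comm_eq_one_of_mem {p q : Gam M} (hp : p.n = 0) (hq : q.n = 0)
    (h : p.f * q.g + q.f * p.g ∈ M) : p * q * p⁻¹ * q⁻¹ = 1 := by
  rw [comm_eq p q hp hq, mk_eq_zero.mpr h]; rfl

theorem prod_zero {J : Set ℤ} (hJ : ∀ k, k ∈ J → k + 1 ∉ J) {α τ : Gam (MJ J)}
    (hτ : τ.n = 1 ∨ τ.n = -1) (hα : α * α = 1)
    (hα' : α * (τ * α * τ⁻¹) * α⁻¹ * (τ * α * τ⁻¹)⁻¹ = 1) : α.f = 0 ∨ α.g = 0 := by
  obtain ⟨hn, h1⟩ := sq_eq_one hα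
  have h2 := mem_of_comm_eq_one hn (by rw [conj_n, hn]) hα'
  rw [conj_f _ _ hn, conj_g _ _ hn] at h2
  have h3 : (T 1 + T (-1)) * (α.f * α.g) ∈ MJ J := by
    rcases hτ with h | h
    · rw [h] at h2
      convert h2 using 1; ring
    · rw [h, neg_neg] at h2
      convert h2 using 1; ring
  exact mul_eq_zero.mp (eq_zero_of_mem hJ h1 h3)

theorem rigid {J : Set ℤ} (hJ : ∀ k, k ∈ J → k + 1 ∉ J)
    (hwin : ∀ c e : ℤ, (e = 1 ∨ e = -1) → c + e ∈ J → c + e * 4 ∈ J → c + e * (-4) ∈ J →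
      c = 0 ∧ e = 1)
    {α β τ : Gam (MJ J)} (hgen : Subgroup.closure {α, β, τ} = ⊤) (hα : α * α = 1)
    (hβ : β * β = 1)
    (hα' : α * (τ * α * τ⁻¹) * α⁻¹ * (τ * α * τ⁻¹)⁻¹ = 1)
    (hβ' : β * (τ * β * τ⁻¹) * β⁻¹ * (τ * β * τ⁻¹)⁻¹ = 1)
    (hz : ∀ k : ℤ, k = 1 ∨ k = 4 ∨ k = -4 →
      α * (τ ^ k * β * (τ ^ k)⁻¹) * α⁻¹ * (τ ^ k * β * (τ ^ k)⁻¹)⁻¹ = 1) :
    ∃ Ψ : Gam (MJ J) ≃* Gam (MJ J), Ψ α = ga ∧ Ψ β = gb ∧ Ψ τ = gt := by
  have hαn := (sq_eq_one hα).1
  have hβn := (sq_eq_one hβ).1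
  have hτ := gen_n hgen hαn hβn
  have hα0 := prod_zero hJ hτ hα hα'
  have hβ0 := prod_zero hJ hτ hβ hβ'
  have hz' : ∀ k : ℤ, k = 1 ∨ k = 4 ∨ k = -4 →
      α.f * (T (k * τ.n) * β.g) + T (-(k * τ.n)) * β.f * α.g ∈ MJ J := by
    intro k hk
    have := mem_of_comm_eq_one hαn (by rw [conj_n, hβn]) (hz k hk)
    rw [conj_f _ _ hβn, conj_g _ _ hβn, zpow_n] at this
    exact this
  have case1 : α.g = 0 → β.f = 0 →
      ∃ Ψ : Gam (MJ J) ≃* Gam (MJ J), Ψ α = ga ∧ Ψ β = gb ∧ Ψ τ = gt := by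
    intro h1 h2
    obtain ⟨c, hc⟩ := eq_T_of_dvd_one (gen_f hgen hαn hβn α.f dvd_rfl (by rw [h2]; exact dvd_zero _))
    obtain ⟨d, hd⟩ := eq_T_of_dvd_one (gen_g hgen hαn hβn β.g (by rw [h1]; exact dvd_zero _) dvd_rfl)
    have hJ' : ∀ k : ℤ, k = 1 ∨ k = 4 ∨ k = -4 → (c + d) + τ.n * k ∈ J := by
      intro k hk
      have := hz' k hk
      rw [h1, h2, hc, hd, mul_zero, add_zero, ← T_add, ← T_add, T_mem_MJ] at this
      convert this using 1; ring
    obtain ⟨e1, e2⟩ := hwin (c + d) τ.n hτ (by simpa using hJ' 1 (by simp)) (hJ' 4 (by simp))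
      (hJ' (-4) (by simp))
    exact normalize1 α β τ c hc h1 hαn h2 (by rw [hd]; congr 1; omega) hβn e2
  have case2 : α.f = 0 → β.g = 0 →
      ∃ Ψ : Gam (MJ J) ≃* Gam (MJ J), Ψ α = ga ∧ Ψ β = gb ∧ Ψ τ = gt := by
    intro h1 h2
    obtain ⟨c, hc⟩ := eq_T_of_dvd_one (gen_g hgen hαn hβn α.g dvd_rfl (by rw [h2]; exact dvd_zero _))
    obtain ⟨d, hd⟩ := eq_T_of_dvd_one (gen_f hgen hαn hβn β.f (by rw [h1]; exact dvd_zero _) dvd_rfl)
    have hJ' : ∀ k : ℤ, k = 1 ∨ k = 4 ∨ k = -4 → (c + d) + (-τ.n) * k ∈ J := by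
      intro k hk
      have := hz' k hk
      rw [h1, h2, hc, hd, zero_mul, zero_add, ← T_add, ← T_add, T_mem_MJ] at this
      convert this using 1; ring
    obtain ⟨e1, e2⟩ := hwin (c + d) (-τ.n) (by rcases hτ with h | h <;> simp [h])
      (by simpa using hJ' 1 (by simp)) (hJ' 4 (by simp)) (hJ' (-4) (by simp))
    exact normalize2 α β τ c h1 hc hαn (by rw [hd]; congr 1; omega) h2 hβn (by omega)
  rcases hα0 with h1 | h1
  · rcases hβ0 with h2 | h2
    · exfalso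
      have := gen_f hgen hαn hβn 0 (by rw [h1]) (by rw [h2])
      exact one_ne_zero (zero_dvd_iff.mp this)
    · exact case2 h1 h2
  · rcases hβ0 with h2 | h2
    · exact case1 h1 h2
    · exfalso
      have := gen_g hgen hαn hβn 0 (by rw [h1]) (by rw [h2])
      exact one_ne_zero (zero_dvd_iff.mp this)

/-! ### maps between the groups -/

theorem map_mk' (n : ℤ) {M M' : AddSubgroup R} (hM : ∀ h ∈ M, T n * h ∈ M') (x : R) :
    QuotientAddGroup.map M M' (AddMonoidHom.mulLeft (T n)) hM ((x : R) : R ⧸ M)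
      = ((T n * x : R) : R ⧸ M') := rfl

/-- `(f,g,h,k) ↦ (f, T n g, T n h, k)` from `Γ_M` to `Γ_{M'}` when `T n M ≤ M'`. -/
noncomputable def shiftHom (n : ℤ) {M M' : AddSubgroup R} (hM : ∀ h ∈ M, T n * h ∈ M') :
    Gam M →* Gam M' where
  toFun p := ⟨p.f, T n * p.g, QuotientAddGroup.map M M' (AddMonoidHom.mulLeft (T n)) hM p.h, p.n⟩
  map_one' := by
    ext1 <;> simp
  map_mul' := by
    intro p q
    ext1
    · simp only [mul_f]
    · simp only [mul_g]; ring
    · simp only [mul_h, map_add, map_mk']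
      congr 2
      ring
    · simp only [mul_n]

theorem shiftHom_apply (n : ℤ) {M M' : AddSubgroup R} (hM : ∀ h ∈ M, T n * h ∈ M') (p : Gam M) :
    shiftHom n hM p =
      ⟨p.f, T n * p.g, QuotientAddGroup.map M M' (AddMonoidHom.mulLeft (T n)) hM p.h, p.n⟩ := rfl

/-- generation by `a`, `b`, `t`. -/
theorem closure_gens (M : AddSubgroup R) : Subgroup.closure {(ga : Gam M), gb, gt} = ⊤ := by
  set K := Subgroup.closure {(ga : Gam M), gb, gt} with hK
  have ha : ga ∈ K := Subgroup.subset_closure (by simp)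
  have hb : gb ∈ K := Subgroup.subset_closure (by simp)
  have ht : gt ∈ K := Subgroup.subset_closure (by simp)
  have htk : ∀ k : ℤ, (⟨0, 0, 0, k⟩ : Gam M) ∈ K := fun k => by
    rw [← gt_zpow]; exact K.zpow_mem ht k
  -- elements (f,0,0,0)
  have hf : ∀ f : R, (⟨f, 0, 0, 0⟩ : Gam M) ∈ K := by
    intro f
    induction f using LaurentPolynomial.induction_on' with
    | add p q hp hq =>
      have := K.mul_mem hp hq
      convert this using 1
      ext1 <;> simp [add_comm]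
    | C_mul_T n a =>
      have : (⟨T n, 0, 0, 0⟩ : Gam M) ∈ K := by
        have e : (⟨T n, 0, 0, 0⟩ : Gam M) = ⟨0, 0, 0, -n⟩ * ga * (⟨0, 0, 0, -n⟩ : Gam M)⁻¹ := by
          ext1 <;> simp [ga]
        rw [e]
        exact K.mul_mem (K.mul_mem (htk _) ha) (K.inv_mem (htk _))
      have ha2 : a = 0 ∨ a = 1 := (by decide : ∀ a : ZMod 2, a = 0 ∨ a = 1) a
      rcases ha2 with rfl | rfl
      · rw [map_zero, zero_mul]; exact K.one_mem
      · rw [map_one, one_mul]; exact this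
  have hg : ∀ g : R, (⟨0, g, 0, 0⟩ : Gam M) ∈ K := by
    intro g
    induction g using LaurentPolynomial.induction_on' with
    | add p q hp hq =>
      have := K.mul_mem hp hq
      convert this using 1
      ext1 <;> simp
    | C_mul_T n a =>
      have : (⟨0, T n, 0, 0⟩ : Gam M) ∈ K := by
        have e : (⟨0, T n, 0, 0⟩ : Gam M) = ⟨0, 0, 0, n⟩ * gb * (⟨0, 0, 0, n⟩ : Gam M)⁻¹ := by
          ext1 <;> simp [gb]
        rw [e]
        exact K.mul_mem (K.mul_mem (htk _) hb) (K.inv_mem (htk _))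
      have ha2 : a = 0 ∨ a = 1 := (by decide : ∀ a : ZMod 2, a = 0 ∨ a = 1) a
      rcases ha2 with rfl | rfl
      · rw [map_zero, zero_mul]; exact K.one_mem
      · rw [map_one, one_mul]; exact this
  have hh : ∀ h : R ⧸ M, (⟨0, 0, h, 0⟩ : Gam M) ∈ K := by
    intro h
    obtain ⟨c, rfl⟩ := QuotientAddGroup.mk_surjective h
    have e : (⟨0, 0, (c : R ⧸ M), 0⟩ : Gam M)
        = ⟨1, 0, 0, 0⟩ * ⟨0, c, 0, 0⟩ * (⟨1, 0, 0, 0⟩ : Gam M)⁻¹ * (⟨0, c, 0, 0⟩ : Gam M)⁻¹ := by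
      rw [comm_eq _ _ rfl rfl]
      simp
    rw [e]
    exact K.mul_mem (K.mul_mem (K.mul_mem (hf 1) (hg c)) (K.inv_mem (hf 1))) (K.inv_mem (hg c))
  rw [eq_top_iff]
  rintro ⟨f, g, h, n⟩ -
  have e : (⟨f, g, h, n⟩ : Gam M) = ⟨0, g, 0, 0⟩ * ⟨0, 0, h, 0⟩ * ⟨0, 0, 0, n⟩ * ⟨f, 0, 0, 0⟩ := by
    ext1 <;> simp
  rw [e]
  exact K.mul_mem (K.mul_mem (K.mul_mem (hg _) (hh _)) (htk _)) (hf _)

end Gam

end Pool.Agent.H71.Hall
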