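import Mathlib
import Pool.Agent.H71.HallGroup
import Pool.Agent.H71.CondLemmas

set_option autoImplicit false

namespace Pool.Agent.H71.Hall

open LaurentPolynomial Gam Pool.Agent.H71.Cond

/-! ### The sets of exponents -/

/-- `I = {4^j u : j ≥ 1, u odd}` -/
def setI : Set ℤ := {k | ∃ (j : ℕ) (u : ℤ), 1 ≤ j ∧ Odd u ∧ k = 4 ^ j * u}

/-- `J = I ∪ {1}` -/
def setJ : Set ℤ := setI ∪ {1}

theorem four_dvd_of_mem {k : ℤ} (h : k ∈ setI) : (4 : ℤ) ∣ k := by
  obtain ⟨j, u, hj, -, rfl⟩ := h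
  exact (dvd_pow_self 4 (by omega)).mul_right u

theorem four_mem : (4 : ℤ) ∈ setI := ⟨1, 1, le_rfl, odd_one, by norm_num⟩
theorem neg_four_mem : (-4 : ℤ) ∈ setI := ⟨1, -1, le_rfl, by decide, by norm_num⟩

theorem setJ_noConsec : ∀ k, k ∈ setJ → k + 1 ∉ setJ := by
  rintro k (hk | hk) (hk' | hk')
  · have := four_dvd_of_mem hk
    have := four_dvd_of_mem hk'
    omega
  · have := four_dvd_of_mem hk
    obtain ⟨j, u, hj, hu, h⟩ := hk
    have hk0 : k = 0 := by
      simp only [Set.mem_singleton_iff] at hk'; omega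
    rw [hk0] at h
    have h4 : (4 : ℤ) ^ j ≠ 0 := by positivity
    have : u = 0 := by
      rcases mul_eq_zero.mp h.symm with h | h
      · exact absurd h h4
      · exact h
    rw [this] at hu
    exact absurd hu (by decide)
  · have := four_dvd_of_mem hk'
    simp only [Set.mem_singleton_iff] at hk
    omega
  · simp only [Set.mem_singleton_iff] at hk hk'
    omega

theorem setJ_window : ∀ c e : ℤ, (e = 1 ∨ e = -1) → c + e ∈ setJ → c + e * 4 ∈ setJ →
    c + e * (-4) ∈ setJ → c = 0 ∧ e = 1 := by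
  intro c e he h1 h2 h3
  have key : ∀ k, k ∈ setJ → (4 : ℤ) ∣ k ∨ k = 1 := by
    rintro k (hk | hk)
    · exact Or.inl (four_dvd_of_mem hk)
    · exact Or.inr hk
  have k1 := key _ h1
  have k2 := key _ h2
  have k3 := key _ h3
  rcases he with rfl | rfl <;> omega

theorem recurrence (S : Finset ℤ) : ∃ n : ℤ, (∀ k ∈ S, (k ∈ setI ↔ k + n ∈ setI)) ∧
    ∃ m : ℤ, m ∉ setI ∧ m + n ∈ setI := by
  obtain ⟨B, hB⟩ : ∃ B : ℕ, ∀ k ∈ S, k.natAbs < B := by
    refine ⟨S.sup Int.natAbs + 1, fun k hk => ?_⟩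
    have := Finset.le_sup (f := Int.natAbs) hk
    omega
  have hB4 : B < 4 ^ B := Nat.lt_pow_self (by norm_num)
  refine ⟨2 * 4 ^ B, ?_, 2 * 4 ^ B, ?_, ?_⟩
  · intro k hk
    have hkB : k.natAbs < 4 ^ B := (hB k hk).trans hB4
    have hpos : (0 : ℤ) < 4 ^ B := by positivity
    have hkB' : |k| < 4 ^ B := by
      rw [Int.abs_eq_natAbs]; exact_mod_cast hkB
    constructor
    · rintro ⟨j, u, hj, hu, rfl⟩
      have hjB : j ≤ B := by
        by_contra hcon
        push Not at hcon
        have hu0 : u ≠ 0 := by rintro rfl; exact absurd hu (by decide)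
        have h1 : (1 : ℤ) ≤ |u| := Int.one_le_abs hu0
        have h2 : |(4 : ℤ) ^ j * u| = 4 ^ j * |u| := by
          rw [abs_mul, abs_of_pos (by positivity : (0:ℤ) < 4 ^ j)]
        have h3 : (4 : ℤ) ^ B ≤ 4 ^ j := pow_le_pow_right₀ (by norm_num) hcon.le
        rw [h2] at hkB'
        nlinarith
      obtain ⟨d, rfl⟩ := Nat.exists_eq_add_of_le hjB
      refine ⟨j, u + 2 * 4 ^ d, hj, ?_, by rw [pow_add]; ring⟩
      exact hu.add_even (even_two_mul _)
    · rintro ⟨j, u, hj, hu, h⟩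
      have hjB : j ≤ B := by
        by_contra hcon
        push Not at hcon
        obtain ⟨d, rfl⟩ := Nat.exists_eq_add_of_lt hcon
        have h1 : k = 4 ^ B * (4 * 4 ^ d * u - 2) := by
          have : k = 4 ^ (B + d + 1) * u - 2 * 4 ^ B := by linarith
          rw [this]; ring
        have h2 : (4 * 4 ^ d * u - 2 : ℤ) ≠ 0 := by
          intro h0
          have : (2 : ℤ) * (2 * (4 ^ d * u)) = 2 * 1 := by linarith
          have := mul_left_cancel₀ (by norm_num) this
          omega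
        have h3 := Int.one_le_abs h2
        rw [h1, abs_mul, abs_of_pos hpos] at hkB'
        nlinarith
      obtain ⟨d, rfl⟩ := Nat.exists_eq_add_of_le hjB
      refine ⟨j, u - 2 * 4 ^ d, hj, ?_, ?_⟩
      · exact hu.sub_even (even_two_mul _)
      · have : k = 4 ^ j * u - 2 * 4 ^ (j + d) := by linarith
        rw [this, pow_add]; ring
  · rintro ⟨j, u, hj, hu, h⟩
    rcases le_or_gt j B with hjB | hjB
    · obtain ⟨d, rfl⟩ := Nat.exists_eq_add_of_le hjB
      have h1 : (4 : ℤ) ^ j * (2 * 4 ^ d) = 4 ^ j * u := by rw [← h, pow_add]; ring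
      have h2 := mul_left_cancel₀ (by positivity) h1
      rw [← h2] at hu
      exact absurd hu (by rw [Int.not_odd_iff_even]; exact even_two_mul _)
    · obtain ⟨d, rfl⟩ := Nat.exists_eq_add_of_lt hjB
      have h1 : (4 : ℤ) ^ B * 2 = 4 ^ B * (4 * 4 ^ d * u) := by
        rw [mul_comm, h]; ring
      have h2 := mul_left_cancel₀ (by positivity) h1
      have : (2 : ℤ) * 1 = 2 * (2 * (4 ^ d * u)) := by linarith
      have := mul_left_cancel₀ (by norm_num) this
      omega
  · exact ⟨B + 1, 1, by omega, odd_one, by ring⟩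

/-! ### The markings -/

/-- the standard marking -/
noncomputable def mark (M : AddSubgroup R) : FreeGroup (Fin 3) →* Gam M :=
  FreeGroup.lift ![ga, gb, gt]

theorem mark_surj (M : AddSubgroup R) : Function.Surjective (mark M) := by
  rw [← MonoidHom.range_eq_top, eq_top_iff, ← closure_gens M, Subgroup.closure_le]
  rintro x (rfl | rfl | rfl)
  · exact ⟨FreeGroup.of 0, by simp [mark]⟩
  · exact ⟨FreeGroup.of 1, by simp [mark]⟩
  · exact ⟨FreeGroup.of 2, by simp [mark]⟩

/-- the shifted marking -/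
noncomputable def markS (M : AddSubgroup R) (n : ℤ) : FreeGroup (Fin 3) →* Gam M :=
  (shiftHom n (M := ⊥) (M' := M) (by
    intro h hh
    rw [AddSubgroup.mem_bot] at hh
    rw [hh, mul_zero]; exact M.zero_mem)).comp (mark ⊥)

theorem markS_of0 (M : AddSubgroup R) (n : ℤ) : markS M n (FreeGroup.of 0) = ga := by
  simp [markS, mark, shiftHom_apply, ga]

theorem markS_of1 (M : AddSubgroup R) (n : ℤ) :
    markS M n (FreeGroup.of 1) = ⟨0, T n, 0, 0⟩ := by
  simp [markS, mark, shiftHom_apply, gb]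

theorem markS_of2 (M : AddSubgroup R) (n : ℤ) : markS M n (FreeGroup.of 2) = gt := by
  simp [markS, mark, shiftHom_apply, gt]

theorem markS_zero (M : AddSubgroup R) : markS M 0 = mark M := by
  apply FreeGroup.ext_hom
  intro i
  fin_cases i
  · show markS M 0 (FreeGroup.of 0) = mark M (FreeGroup.of 0)
    rw [markS_of0]; simp [mark]
  · show markS M 0 (FreeGroup.of 1) = mark M (FreeGroup.of 1)
    rw [markS_of1]; simp [mark, gb]
  · show markS M 0 (FreeGroup.of 2) = mark M (FreeGroup.of 2)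
    rw [markS_of2]; simp [mark]

theorem markS_surj (M : AddSubgroup R) (n : ℤ) : Function.Surjective (markS M n) := by
  rw [← MonoidHom.range_eq_top, eq_top_iff, ← closure_gens M, Subgroup.closure_le]
  rintro x (rfl | rfl | rfl)
  · exact ⟨FreeGroup.of 0, markS_of0 M n⟩
  · have : (gb : Gam M) = gt ^ (-n) * ⟨0, T n, 0, 0⟩ * (gt ^ (-n))⁻¹ := by
      rw [gt_zpow]
      ext1
      · simp [gb]
      · simp only [gb, mul_g, inv_g, mul_n]
        simp only [mul_zero, neg_zero, add_zero, zero_add]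
        rw [mul_comm, T_mul_T_neg]
      · simp [gb]
      · simp [gb]
    rw [this]
    refine ⟨FreeGroup.of 2 ^ (-n) * FreeGroup.of 1 * (FreeGroup.of 2 ^ (-n))⁻¹, ?_⟩
    simp only [map_mul, map_inv, map_zpow, markS_of1, markS_of2]
  · exact ⟨FreeGroup.of 2, markS_of2 M n⟩

theorem markS_eq_one (J : Set ℤ) (n : ℤ) (w : FreeGroup (Fin 3)) (c : R)
    (hc : (mark ⊥ w).h = ((c : R) : R ⧸ (⊥ : AddSubgroup R))) :
    markS (MJ J) n w = 1 ↔ (mark ⊥ w).f = 0 ∧ (mark ⊥ w).g = 0 ∧ (mark ⊥ w).n = 0 ∧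
      ∀ k, k + n ∉ J → c.coeff k = 0 := by
  unfold markS
  rw [MonoidHom.comp_apply, shiftHom_apply, hc, map_mk', ← T_mul_mem_MJ, ← mk_eq_zero]
  constructor
  · intro h
    refine ⟨congrArg Gam.f h, ?_, congrArg Gam.n h, congrArg Gam.h h⟩
    have := congrArg Gam.g h
    simp only [one_g] at this
    exact (isUnit_T n).mul_right_eq_zero.mp this
  · rintro ⟨h1, h2, h3, h4⟩
    ext1
    · exact h1
    · show T n * (mark ⊥ w).g = 0
      rw [h2, mul_zero]
    · exact h4
    · exact h3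

theorem condensed_I : Condensed (Gam (MJ setI)) := by
  classical
  apply condensed_of 3 (mark (MJ setI)) (mark_surj _)
  intro W
  have hrep : ∀ w : FreeGroup (Fin 3), ∃ c : R, (mark ⊥ w).h = ((c : R) : R ⧸ (⊥ : AddSubgroup R)) := by
    intro w
    obtain ⟨c, hc⟩ := QuotientAddGroup.mk_surjective (mark ⊥ w).h
    exact ⟨c, hc.symm⟩
  choose c hc using hrep
  obtain ⟨n, hn, m, hm, hmn⟩ := recurrence (W.biUnion fun w => (c w).coeff.support)
  refine ⟨markS (MJ setI) n, markS_surj _ _, ?_, ?_⟩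
  · intro w hw
    rw [← markS_zero, markS_eq_one setI n w (c w) (hc w), markS_eq_one setI 0 w (c w) (hc w)]
    have : (∀ k, k + n ∉ setI → (c w).coeff k = 0) ↔ (∀ k, k + 0 ∉ setI → (c w).coeff k = 0) := by
      constructor
      · intro H k hk
        by_contra hne
        have hkS : k ∈ W.biUnion fun w => (c w).coeff.support :=
          Finset.mem_biUnion.mpr ⟨w, hw, Finsupp.mem_support_iff.mpr hne⟩
        rw [add_zero] at hk
        exact hne (H k (fun h => hk ((hn k hkS).mpr h)))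
      · intro H k hk
        by_contra hne
        have hkS : k ∈ W.biUnion fun w => (c w).coeff.support :=
          Finset.mem_biUnion.mpr ⟨w, hw, Finsupp.mem_support_iff.mpr hne⟩
        refine hne (H k ?_)
        rw [add_zero]
        exact fun h => hk ((hn k hkS).mp h)
    rw [this]
  · intro heq
    obtain ⟨w, hw⟩ := mark_surj ⊥ (⟨0, 0, ((T m : R) : R ⧸ (⊥ : AddSubgroup R)), 0⟩ : Gam ⊥)
    have hwc : (mark ⊥ w).h = ((T m : R) : R ⧸ (⊥ : AddSubgroup R)) := by rw [hw]
    have h1 : w ∈ (markS (MJ setI) n).ker := by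
      rw [MonoidHom.mem_ker, markS_eq_one setI n w (T m) hwc, hw]
      refine ⟨rfl, rfl, rfl, ?_⟩
      intro k hk
      rw [T_apply, if_neg]
      rintro rfl
      exact hk hmn
    rw [heq, ← markS_zero, MonoidHom.mem_ker, markS_eq_one setI 0 w (T m) hwc] at h1
    have := h1.2.2.2 m (by rw [add_zero]; exact hm)
    simp at this

theorem not_condensed_J : ¬ Condensed (Gam (MJ setJ)) := by
  set a : FreeGroup (Fin 3) := FreeGroup.of 0 with ha
  set b : FreeGroup (Fin 3) := FreeGroup.of 1 with hb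
  set t : FreeGroup (Fin 3) := FreeGroup.of 2 with ht
  classical
  set W : Finset (FreeGroup (Fin 3)) := {a * a, b * b,
    a * (t * a * t⁻¹) * a⁻¹ * (t * a * t⁻¹)⁻¹,
    b * (t * b * t⁻¹) * b⁻¹ * (t * b * t⁻¹)⁻¹,
    a * (t ^ (1 : ℤ) * b * (t ^ (1 : ℤ))⁻¹) * a⁻¹ * (t ^ (1 : ℤ) * b * (t ^ (1 : ℤ))⁻¹)⁻¹,
    a * (t ^ (4 : ℤ) * b * (t ^ (4 : ℤ))⁻¹) * a⁻¹ * (t ^ (4 : ℤ) * b * (t ^ (4 : ℤ))⁻¹)⁻¹,
    a * (t ^ (-4 : ℤ) * b * (t ^ (-4 : ℤ))⁻¹) * a⁻¹ *
      (t ^ (-4 : ℤ) * b * (t ^ (-4 : ℤ))⁻¹)⁻¹} with hW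
  have hma : mark (MJ setJ) a = ga := by simp [mark, ha]
  have hmb : mark (MJ setJ) b = gb := by simp [mark, hb]
  have hmt : mark (MJ setJ) t = gt := by simp [mark, ht]
  have hz : ∀ k : ℤ, k ∈ setJ → (ga : Gam (MJ setJ)) * (gt ^ k * gb * (gt ^ k)⁻¹) * ga⁻¹ *
      (gt ^ k * gb * (gt ^ k)⁻¹)⁻¹ = 1 := by
    intro k hk
    apply comm_eq_one_of_mem rfl (by rw [conj_n]; rfl)
    rw [conj_f _ _ (by rfl), conj_g _ _ (by rfl)]
    simp only [ga, gb, gt_zpow, mul_one, mul_zero, add_zero, one_mul]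
    exact T_mem_MJ.mpr hk
  apply not_condensed_of 3 (by norm_num) (mark (MJ setJ)) (mark_surj _) W
  · intro w hw
    simp only [hW, Finset.mem_insert, Finset.mem_singleton] at hw
    rcases hw with rfl | rfl | rfl | rfl | rfl | rfl | rfl
    · rw [map_mul, hma]
      ext1
      · simp [ga]; exact add_self 1
      · simp [ga]
      · simp [ga]
      · simp [ga]
    · rw [map_mul, hmb]
      ext1
      · simp [gb]
      · simp [gb]; exact add_self 1
      · simp [gb]
      · simp [gb]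
    · simp only [map_mul, map_inv, hma, hmt]
      apply comm_eq_one_of_mem rfl (by rw [conj_n]; rfl)
      rw [conj_f _ _ (by rfl), conj_g _ _ (by rfl)]
      simp [ga]
    · simp only [map_mul, map_inv, hmb, hmt]
      apply comm_eq_one_of_mem rfl (by rw [conj_n]; rfl)
      rw [conj_f _ _ (by rfl), conj_g _ _ (by rfl)]
      simp [gb]
    · simp only [map_mul, map_inv, map_zpow, hma, hmb, hmt]
      exact hz 1 (Or.inr rfl)
    · simp only [map_mul, map_inv, map_zpow, hma, hmb, hmt]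
      exact hz 4 (Or.inl four_mem)
    · simp only [map_mul, map_inv, map_zpow, hma, hmb, hmt]
      exact hz (-4) (Or.inl neg_four_mem)
  · intro ψ hψ hψW
    have hgen : Subgroup.closure {ψ a, ψ b, ψ t} = ⊤ := by
      rw [eq_top_iff, ← MonoidHom.range_eq_top.mpr hψ]
      rintro _ ⟨w, rfl⟩
      induction w using FreeGroup.induction_on with
      | C1 => rw [map_one]; exact Subgroup.one_mem _
      | of i =>
        apply Subgroup.subset_closure
        fin_cases i
        · left; rfl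
        · right; left; rfl
        · right; right; rfl
      | inv_of i h => rw [map_inv]; exact Subgroup.inv_mem _ h
      | mul x y hx hy => rw [map_mul]; exact Subgroup.mul_mem _ hx hy
    have hr : ∀ w ∈ W, ψ w = 1 := hψW
    obtain ⟨Ψ, h1, h2, h3⟩ := rigid setJ_noConsec setJ_window hgen
      (by have := hr (a * a) (by simp [hW]); simpa only [map_mul] using this)
      (by have := hr (b * b) (by simp [hW]); simpa only [map_mul] using this)
      (by
        have := hr (a * (t * a * t⁻¹) * a⁻¹ * (t * a * t⁻¹)⁻¹)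
          (by rw [hW]; simp only [Finset.mem_insert, true_or, or_true])
        simpa only [map_mul, map_inv] using this)
      (by
        have := hr (b * (t * b * t⁻¹) * b⁻¹ * (t * b * t⁻¹)⁻¹)
          (by rw [hW]; simp only [Finset.mem_insert, true_or, or_true])
        simpa only [map_mul, map_inv] using this)
      (by
        rintro k (rfl | rfl | rfl)
        · have := hr (a * (t ^ (1 : ℤ) * b * (t ^ (1 : ℤ))⁻¹) * a⁻¹ *
            (t ^ (1 : ℤ) * b * (t ^ (1 : ℤ))⁻¹)⁻¹)
            (by rw [hW]; simp only [Finset.mem_insert, true_or, or_true])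
          simpa only [map_mul, map_inv, map_zpow] using this
        · have := hr (a * (t ^ (4 : ℤ) * b * (t ^ (4 : ℤ))⁻¹) * a⁻¹ *
            (t ^ (4 : ℤ) * b * (t ^ (4 : ℤ))⁻¹)⁻¹)
            (by rw [hW]; simp only [Finset.mem_insert, true_or, or_true])
          simpa only [map_mul, map_inv, map_zpow] using this
        · have := hr (a * (t ^ (-4 : ℤ) * b * (t ^ (-4 : ℤ))⁻¹) * a⁻¹ *
            (t ^ (-4 : ℤ) * b * (t ^ (-4 : ℤ))⁻¹)⁻¹)
            (by rw [hW]; simp only [Finset.mem_insert, Finset.mem_singleton, or_true])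
          simpa only [map_mul, map_inv, map_zpow] using this)
    have hcomp : Ψ.toMonoidHom.comp ψ = mark (MJ setJ) := by
      apply FreeGroup.ext_hom
      intro i
      fin_cases i
      · show Ψ (ψ a) = mark (MJ setJ) a
        rw [h1, hma]
      · show Ψ (ψ b) = mark (MJ setJ) b
        rw [h2, hmb]
      · show Ψ (ψ t) = mark (MJ setJ) t
        rw [h3, hmt]
    ext w
    rw [MonoidHom.mem_ker, MonoidHom.mem_ker, ← hcomp]
    show ψ w = 1 ↔ Ψ (ψ w) = 1
    exact (map_eq_one_iff Ψ Ψ.injective).symm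

theorem setI_subset : setI ⊆ setJ := Set.subset_union_left

theorem qi : QuasiIsometric (Gam (MJ setI)) (Gam (MJ setJ)) := by
  have hM : ∀ h ∈ MJ setI, T 0 * h ∈ MJ setJ := by
    intro h hh
    rw [T_zero, one_mul]
    intro k hk
    exact hh k (fun h => hk (setI_subset h))
  apply quasiIsometric_of_surj (shiftHom 0 hM)
  · intro p
    obtain ⟨f, g, h, n⟩ := p
    obtain ⟨c, rfl⟩ := QuotientAddGroup.mk_surjective h
    refine ⟨⟨f, g, ((c : R) : R ⧸ MJ setI), n⟩, ?_⟩
    rw [shiftHom_apply, map_mk', T_zero, one_mul, one_mul]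
  · apply Set.Finite.subset (Set.toFinite ({⟨0, 0, 0, 0⟩, ⟨0, 0, ((T 1 : R) : R ⧸ MJ setI), 0⟩} :
      Set (Gam (MJ setI))))
    intro p hp
    have hp' : shiftHom 0 hM p = 1 := hp
    obtain ⟨f, g, h, n⟩ := p
    obtain ⟨c, rfl⟩ := QuotientAddGroup.mk_surjective h
    rw [shiftHom_apply, map_mk', T_zero, one_mul, one_mul] at hp'
    have e1 : f = 0 := congrArg Gam.f hp'
    have e2 : g = 0 := congrArg Gam.g hp'
    have e3 : ((c : R) : R ⧸ MJ setJ) = 0 := congrArg Gam.h hp'
    have e4 : n = 0 := congrArg Gam.n hp'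
    subst e1 e2 e4
    rw [mk_eq_zero] at e3
    have hcase : c.coeff 1 = 0 ∨ c.coeff 1 = 1 :=
      (by decide : ∀ a : ZMod 2, a = 0 ∨ a = 1) _
    rcases hcase with h0 | h0
    · left
      congr 1
      apply mk_eq_zero.mpr
      intro k hk
      by_cases hk1 : k = 1
      · rw [hk1]; exact h0
      · exact e3 k (by rintro (h | h); exacts [hk h, hk1 h])
    · right
      rw [Set.mem_singleton_iff]
      congr 1
      rw [QuotientAddGroup.eq]
      intro k hk
      rw [AddMonoidAlgebra.coeff_add, Finsupp.add_apply, AddMonoidAlgebra.coeff_neg,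
        Finsupp.neg_apply, T_apply]
      by_cases hk1 : k = 1
      · rw [hk1, h0]; decide
      · rw [e3 k (by rintro (h | h); exacts [hk h, hk1 h]), if_neg (fun h => hk1 h.symm)]; simp

theorem fg_Gam (M : AddSubgroup R) : Group.FG (Gam M) :=
  Group.fg_iff.mpr ⟨{ga, gb, gt}, closure_gens M, Set.toFinite _⟩

end Pool.Agent.H71.Hall
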